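import Pool.Agent.H1.DPL.PlnT

/-!
# The own slope and two references on one line (COP): the pure part

If (H6b) fails at the exact points of an event, and two samples of a line are bad with small
probability only, then on a large event the own slope lies on a line, with a covector which is a
function of the point, together with two slopes which are functions of the line.
-/

set_option autoImplicit false

namespace Pool.COP

open Finset Real
open Pool.Agent.H49.Ent Pool.Agent.H32.Dense Pool.STK Pool.PLN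

variable {Ω Λ ξ : Type} [Fintype Ω] {P : Ω → ℝ}

/-- One minus the probability of an event. -/
theorem ind_compl (E : Prop) : ind (¬ E) = 1 - ind E := by
  by_cases h : E
  · rw [ind_not (not_not.2 h), ind_of h, sub_self]
  · rw [ind_of h, ind_not h, sub_zero]

theorem ind_and (E E' : Prop) : ind (E ∧ E') = ind E * ind E' := by
  by_cases h : E
  · by_cases h' : E'
    · rw [ind_of h, ind_of h', ind_of ⟨h, h'⟩, mul_one]
    · rw [ind_not h', ind_not (fun k => h' k.2), mul_zero]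
  · rw [ind_not h, ind_not (fun k => h k.1), zero_mul]

/-- A choice above the mean. -/
theorem avg_ge {ι : Type} [Fintype ι] {c : ι → ℝ} (hc : IsLaw c) (F : ι → ℝ) :
    ∃ x, 0 < c x ∧ ∑ y, c y * F y ≤ F x := by
  obtain ⟨x, h1, h2⟩ := avg1 hc (F := fun x => -F x) (M := -∑ y, c y * F y) (by
    simp only [mul_neg]
    rw [Finset.sum_neg_distrib])
  exact ⟨x, h1, by linarith⟩

/-- The law of two independent samples. -/
theorem prod_law {c : Ω → ℝ} (hc : IsLaw c) : IsLaw (fun z : Ω × Ω => c z.1 * c z.2) := by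
  refine ⟨fun z => mul_nonneg (hc.nonneg _) (hc.nonneg _), ?_⟩
  rw [Fintype.sum_prod_type]
  simp only
  have : ∀ x, ∑ y, c x * c y = c x := fun x => by
    rw [← Finset.mul_sum, hc.sum_one, mul_one]
  simp only [this]
  exact hc.sum_one

theorem sum_prod (c : Ω → ℝ) (f : Ω → Ω → ℝ) :
    ∑ z : Ω × Ω, c z.1 * c z.2 * f z.1 z.2 = ∑ x, c x * ∑ y, c y * f x y := by
  rw [Fintype.sum_prod_type]
  refine Finset.sum_congr rfl fun x _ => ?_
  rw [Finset.mul_sum]
  exact Finset.sum_congr rfl fun y _ => by ring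

/-- **(H6a).** -/
theorem h6a_pure (hP : IsLaw P) (L : Ω → Λ) {c : ℕ} (S : Ω → Fin c → ℝ) {δ p₀ ε : ℝ}
    (hp₀ : p₀ < 1)
    (hB : ∑ w, P w * ∑ ρ, Pool.Agent.H49.Ent.cond P L (L w) ρ *
      ind (∀ i, |S ρ i - S w i| < δ) ≤ ε * (1 - p₀)) :
    Pool.KAF.Pr P {ω | Pool.KAF.Pr (Pool.Agent.H49.Ent.cond P L (L ω))
      {ρ | ∃ i, δ ≤ |S ρ i - S ω i|} < p₀} ≤ ε := by
  have h0 := hP.nonneg
  rw [show Pool.KAF.Pr P _ = law P _ True from rfl, law_ind]
  have h1 : (1 - p₀) * ∑ ω, P ω * ind (ω ∈ {ω | Pool.KAF.Pr (Pool.Agent.H49.Ent.cond P L (L ω))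
      {ρ | ∃ i, δ ≤ |S ρ i - S ω i|} < p₀}) ≤ ε * (1 - p₀) := by
    refine le_trans ?_ hB
    rw [Finset.mul_sum]
    refine Finset.sum_le_sum fun w _ => ?_
    rcases (h0 w).eq_or_lt with hw | hw
    · rw [← hw]; simp
    have hl := cond_law (Z := L) hP hw
    by_cases hb : Pool.KAF.Pr (Pool.Agent.H49.Ent.cond P L (L w))
        {ρ | ∃ i, δ ≤ |S ρ i - S w i|} < p₀
    · rw [ind_of (show w ∈ {ω | Pool.KAF.Pr (Pool.Agent.H49.Ent.cond P L (L ω))
        {ρ | ∃ i, δ ≤ |S ρ i - S ω i|} < p₀} from hb)]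
      rw [show Pool.KAF.Pr (Pool.Agent.H49.Ent.cond P L (L w)) {ρ | ∃ i, δ ≤ |S ρ i - S w i|} =
        law (Pool.Agent.H49.Ent.cond P L (L w)) _ True from rfl, law_ind] at hb
      have e1 : ∑ ρ, Pool.Agent.H49.Ent.cond P L (L w) ρ * ind (∀ i, |S ρ i - S w i| < δ) =
          1 - ∑ ρ, Pool.Agent.H49.Ent.cond P L (L w) ρ *
            ind (ρ ∈ {ρ | ∃ i, δ ≤ |S ρ i - S w i|}) := by
        rw [← hl.sum_one, ← Finset.sum_sub_distrib]
        refine Finset.sum_congr rfl fun ρ _ => ?_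
        have e2 : ind (∀ i, |S ρ i - S w i| < δ) =
            1 - ind (ρ ∈ {ρ | ∃ i, δ ≤ |S ρ i - S w i|}) := by
          rw [← ind_compl]
          congr 1
          simp only [Set.mem_ofPred_eq, not_exists, not_le]
        rw [e2]
        ring
      rw [e1]
      nlinarith
    · rw [ind_not (show ¬ w ∈ {ω | Pool.KAF.Pr (Pool.Agent.H49.Ent.cond P L (L ω))
        {ρ | ∃ i, δ ≤ |S ρ i - S ω i|} < p₀} from hb), mul_zero, mul_zero]
      exact mul_nonneg hw.le (Finset.sum_nonneg fun ρ _ => mul_nonneg (hl.nonneg ρ)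
        (ind_nonneg _))
  nlinarith [h1]

/-- The event of `cop_pure`. -/
def CopE (P : Ω → ℝ) (L : Ω → Λ) (pt : Ω → ξ) (S : Ω → Fin 2 → ℝ) (δ : ℝ) (B : Ω → Ω → Prop)
    (n : ξ → Fin 2 → ℝ) (r r' : Λ → Ω) (ω : Ω) : Prop :=
  ((∀ i, |n (pt ω) i| ≤ 1) ∧ ∃ i, |n (pt ω) i| = 1) ∧
    |∑ i, n (pt ω) i * (S (r (L ω)) i - S ω i)| < δ ∧
    |∑ i, n (pt ω) i * (S (r' (L ω)) i - S ω i)| < δ ∧ ¬ B (r (L ω)) (r' (L ω)) ∧
    0 < P ω ∧ (0 < P (r (L ω)) ∧ L (r (L ω)) = L ω) ∧ 0 < P (r' (L ω)) ∧ L (r' (L ω)) = L ω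

/-- **(COP), the pure part.** -/
theorem cop_pure (hP : IsLaw P) (L : Ω → Λ) (pt : Ω → ξ) (S : Ω → Fin 2 → ℝ)
    (hS : Det P pt S) {δ p₀ ε : ℝ} (hp₀ : p₀ ≤ 1) (hε : 0 ≤ ε) (B : Ω → Ω → Prop)
    (hB : ∑ w, P w * ∑ ρ, Pool.Agent.H49.Ent.cond P L (L w) ρ * ind (B w ρ) ≤
      (ε * (1 - p₀)) ^ 2 / 2)
    (hf : ε < Pool.KAF.Pr P {ω | ∃ n : Fin 2 → ℝ, (∀ i, |n i| ≤ 1) ∧ (∃ i, |n i| = 1) ∧
      ∑ ω', Pool.Agent.H49.Ent.cond P pt (pt ω) ω' *
        Pool.KAF.Pr (Pool.Agent.H49.Ent.cond P L (L ω'))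
          {ρ | δ ≤ |∑ i, n i * (S ρ i - S ω i)|} < p₀}) :
    ∃ (n : ξ → Fin 2 → ℝ) (r r' : Λ → Ω),
      (ε * (1 - p₀)) ^ 2 / 2 ≤ ∑ ω, P ω * ind (CopE P L pt S δ B n r r' ω) := by
  classical
  have h0 := hP.nonneg
  obtain ⟨G, hG⟩ : ∃ G : ξ → (Fin 2 → ℝ) → Prop, G = fun z n => ((∀ i, |n i| ≤ 1) ∧
      ∃ i, |n i| = 1) ∧ ∑ w, Pool.Agent.H49.Ent.cond P pt z w *
        ∑ ρ, Pool.Agent.H49.Ent.cond P L (L w) ρ * ind (δ ≤ |∑ i, n i * (S ρ i - S w i)|) ≤ p₀ :=
    ⟨_, rfl⟩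
  obtain ⟨n, hn⟩ : ∃ n : ξ → Fin 2 → ℝ, n = fun z => if h : ∃ n, G z n then h.choose else 0 :=
    ⟨_, rfl⟩
  have hnG : ∀ z, (∃ n, G z n) → G z (n z) := fun z h => by
    rw [hn]
    simp only [dif_pos h]
    exact h.choose_spec
  obtain ⟨fl, hfl⟩ : ∃ fl : ξ → Prop, fl = fun z => ∃ n, G z n := ⟨_, rfl⟩
  -- the failing event
  have h1 : ε ≤ ∑ ω, P ω * ind (fl (pt ω)) := by
    refine hf.le.trans ?_
    rw [show Pool.KAF.Pr P _ = law P _ True from rfl, law_ind]
    refine Finset.sum_le_sum fun ω _ => ?_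
    rcases (h0 ω).eq_or_lt with hω | hω
    · rw [← hω, zero_mul, zero_mul]
    refine mul_le_mul_of_nonneg_left (ind_mono ?_) hω.le
    rintro ⟨n', hn1, hn2, hn3⟩
    rw [hfl, hG]
    refine ⟨n', ⟨hn1, hn2⟩, le_trans (le_of_eq ?_) hn3.le⟩
    refine Finset.sum_congr rfl fun w _ => ?_
    rcases (cond_nonneg h0 pt (pt ω) w).eq_or_lt with hw | hw
    · rw [← hw, zero_mul, zero_mul]
    obtain ⟨hw1, hw2⟩ := (cond_pos_iff h0 pt (pt ω) w).1 hw
    rw [show Pool.KAF.Pr (Pool.Agent.H49.Ent.cond P L (L w)) _ =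
      law (Pool.Agent.H49.Ent.cond P L (L w)) _ True from rfl, law_ind]
    have e : S ω = S w := hS ω w hω hw1 hw2.symm
    rw [e]
    rfl
  -- the good pairs
  obtain ⟨R, hR⟩ : ∃ R : Ω → Ω → Prop, R = fun w ρ => fl (pt w) ∧
      |∑ i, n (pt w) i * (S ρ i - S w i)| < δ := ⟨_, rfl⟩
  obtain ⟨a, ha⟩ : ∃ a : Ω → ℝ, a = fun w => ∑ ρ, Pool.Agent.H49.Ent.cond P L (L w) ρ *
      ind (R w ρ) := ⟨_, rfl⟩
  have h2 : ε * (1 - p₀) ≤ ∑ ω, P ω * a ω := by
    obtain ⟨g, hg⟩ : ∃ g : ξ → Ω → ℝ, g = fun z w => ind (fl z) *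
        ∑ ρ, Pool.Agent.H49.Ent.cond P L (L w) ρ *
          ind (δ ≤ |∑ i, n z i * (S ρ i - S w i)|) := ⟨_, rfl⟩
    have k1 := sum_cc' (Z := pt) hP g
    have k2 : ∑ ω, P ω * ∑ w, Pool.Agent.H49.Ent.cond P pt (pt ω) w * g (pt ω) w ≤
        ∑ ω, P ω * (ind (fl (pt ω)) * p₀) := by
      refine Finset.sum_le_sum fun ω _ => mul_le_mul_of_nonneg_left ?_ (h0 ω)
      rw [hg]
      have e1 : ∀ w, Pool.Agent.H49.Ent.cond P pt (pt ω) w * (ind (fl (pt ω)) *
          ∑ ρ, Pool.Agent.H49.Ent.cond P L (L w) ρ *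
            ind (δ ≤ |∑ i, n (pt ω) i * (S ρ i - S w i)|)) =
          ind (fl (pt ω)) * (Pool.Agent.H49.Ent.cond P pt (pt ω) w *
            ∑ ρ, Pool.Agent.H49.Ent.cond P L (L w) ρ *
            ind (δ ≤ |∑ i, n (pt ω) i * (S ρ i - S w i)|)) := fun w => by ring
      simp only [e1]
      rw [← Finset.mul_sum]
      by_cases h : fl (pt ω)
      · rw [ind_of h, one_mul, one_mul]
        have h' : ∃ n, G (pt ω) n := by
          rw [hfl] at h
          exact h
        have := hnG _ h'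
        rw [hG] at this
        exact this.2
      · rw [ind_not h, zero_mul, zero_mul]
    have k3 : ∀ w, P w * a w = P w * ind (fl (pt w)) - P w * g (pt w) w := by
      intro w
      rcases (h0 w).eq_or_lt with hw | hw
      · rw [← hw]; ring
      rw [← mul_sub]
      congr 1
      rw [ha, hg]
      have hl := cond_law (Z := L) hP hw
      simp only
      have e1 : ∀ ρ, Pool.Agent.H49.Ent.cond P L (L w) ρ * ind (R w ρ) =
          Pool.Agent.H49.Ent.cond P L (L w) ρ * ind (fl (pt w)) - ind (fl (pt w)) *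
          (Pool.Agent.H49.Ent.cond P L (L w) ρ *
            ind (δ ≤ |∑ i, n (pt w) i * (S ρ i - S w i)|)) := by
        intro ρ
        have e2 : ind (R w ρ) = ind (fl (pt w)) *
            (1 - ind (δ ≤ |∑ i, n (pt w) i * (S ρ i - S w i)|)) := by
          rw [← ind_compl, ← ind_and, hR]
          congr 1
          simp only [not_le]
        rw [e2]
        ring
      simp only [e1]
      rw [Finset.sum_sub_distrib, ← Finset.sum_mul, hl.sum_one, one_mul, ← Finset.mul_sum]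
    have k4 : ∑ ω, P ω * a ω = ∑ ω, P ω * ind (fl (pt ω)) - ∑ ω, P ω * g (pt ω) ω := by
      rw [← Finset.sum_sub_distrib]
      exact Finset.sum_congr rfl fun w _ => k3 w
    have k5 : ∑ ω, P ω * (ind (fl (pt ω)) * p₀) = p₀ * ∑ ω, P ω * ind (fl (pt ω)) := by
      rw [Finset.mul_sum]
      exact Finset.sum_congr rfl fun w _ => by ring
    rw [k4, ← k1]
    have k6 : (1 - p₀) * ε ≤ (1 - p₀) * ∑ ω, P ω * ind (fl (pt ω)) :=
      mul_le_mul_of_nonneg_left h1 (by linarith)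
    rw [k5] at k2
    linarith
  -- Jensen
  have h3 : (ε * (1 - p₀)) ^ 2 ≤ ∑ ω, P ω * (a ω) ^ 2 := by
    have k1 : (ε * (1 - p₀)) ^ 2 ≤ (∑ ω, P ω * a ω) ^ 2 :=
      pow_le_pow_left₀ (mul_nonneg hε (by linarith)) h2 2
    refine k1.trans ?_
    have k2 : 0 ≤ ∑ ω, P ω * (a ω - ∑ ω', P ω' * a ω') ^ 2 :=
      Finset.sum_nonneg fun ω _ => mul_nonneg (h0 ω) (sq_nonneg _)
    obtain ⟨μ, hμ⟩ : ∃ μ, μ = ∑ ω', P ω' * a ω' := ⟨_, rfl⟩
    rw [← hμ] at k2 ⊢
    have e1 : ∀ ω, P ω * (a ω - μ) ^ 2 = P ω * (a ω) ^ 2 - 2 * μ * (P ω * a ω) + P ω * μ ^ 2 :=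
      fun ω => by ring
    simp only [e1] at k2
    rw [Finset.sum_add_distrib, Finset.sum_sub_distrib, ← Finset.mul_sum, ← hμ,
      ← Finset.sum_mul, hP.sum_one] at k2
    nlinarith
  -- the two references given the line
  obtain ⟨c, hc⟩ : ∃ c : Λ → Ω → ℝ, c = fun ℓ => Pool.Agent.H49.Ent.cond P L ℓ := ⟨_, rfl⟩
  have hcL : ∀ ω w, 0 < c (L ω) w → L w = L ω ∧ 0 < P w := fun ω w h => by
    rw [hc] at h
    exact ((cond_pos_iff h0 L (L ω) w).1 h).symm
  have hc0 : ∀ ℓ w, 0 ≤ c ℓ w := fun ℓ w => by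
    rw [hc]
    exact cond_nonneg h0 L ℓ w
  obtain ⟨Fv, hFv⟩ : ∃ Fv : Λ → Ω → Ω → ℝ, Fv = fun ℓ x y => ∑ w, c ℓ w *
      ind ((R w x ∧ R w y) ∧ ¬ B x y) := ⟨_, rfl⟩
  have h4 : (ε * (1 - p₀)) ^ 2 / 2 ≤ ∑ ω, P ω * ∑ x, c (L ω) x * ∑ y, c (L ω) y *
      Fv (L ω) x y := by
    have k1 := sum_cc' (Z := L) hP (fun ℓ w => (∑ x, c ℓ x * ind (R w x)) ^ 2)
    have k2 : ∑ w, P w * (∑ x, c (L w) x * ind (R w x)) ^ 2 = ∑ ω, P ω * (a ω) ^ 2 := by
      refine Finset.sum_congr rfl fun w _ => ?_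
      rw [ha, hc]
    have k3 : ∀ ω, ∑ w, Pool.Agent.H49.Ent.cond P L (L ω) w *
        (∑ x, c (L ω) x * ind (R w x)) ^ 2 ≤ ∑ x, c (L ω) x * ∑ y, c (L ω) y * ind (B x y) +
          ∑ x, c (L ω) x * ∑ y, c (L ω) y * Fv (L ω) x y := by
      intro ω
      have hcc : Pool.Agent.H49.Ent.cond P L (L ω) = c (L ω) := by rw [hc]
      rw [hcc]
      rcases (h0 ω).eq_or_lt with hω | hω
      · -- the law of the line may be zero
        have e0 : ∀ w, c (L ω) w * (∑ x, c (L ω) x * ind (R w x)) ^ 2 =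
            c (L ω) w * ∑ x, c (L ω) x * ∑ y, c (L ω) y * (ind (R w x) * ind (R w y)) := by
          intro w
          congr 1
          rw [sq, Finset.sum_mul_sum]
          refine Finset.sum_congr rfl fun x _ => ?_
          rw [Finset.mul_sum]
          exact Finset.sum_congr rfl fun y _ => by ring
        simp only [e0]
        by_cases hl : ∃ w, 0 < c (L ω) w
        · obtain ⟨w0, hw0⟩ := hl
          obtain ⟨q1, q2⟩ := hcL ω w0 hw0
          have hlw : IsLaw (c (L ω)) := by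
            rw [hc, ← q1]
            exact cond_law (Z := L) hP q2
          have e1 : ∑ w, c (L ω) w * ∑ x, c (L ω) x * ∑ y, c (L ω) y * (ind (R w x) * ind (R w y)) =
              ∑ x, c (L ω) x * ∑ y, c (L ω) y * ∑ w, c (L ω) w * (ind (R w x) * ind (R w y)) := by
            simp only [Finset.mul_sum]
            rw [Finset.sum_comm]
            refine Finset.sum_congr rfl fun x _ => ?_
            rw [Finset.sum_comm]
            exact Finset.sum_congr rfl fun y _ => Finset.sum_congr rfl fun w _ => by ring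
          rw [e1, ← Finset.sum_add_distrib]
          refine Finset.sum_le_sum fun x _ => ?_
          rw [← mul_add, ← Finset.sum_add_distrib]
          refine mul_le_mul_of_nonneg_left (Finset.sum_le_sum fun y _ => ?_) (hc0 _ _)
          rw [← mul_add]
          refine mul_le_mul_of_nonneg_left ?_ (hc0 _ _)
          rw [hFv]
          by_cases hb : B x y
          · rw [ind_of hb]
            have : ∑ w, c (L ω) w * (ind (R w x) * ind (R w y)) ≤ 1 := by
              rw [← hlw.sum_one]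
              refine Finset.sum_le_sum fun w _ => ?_
              have q3 := ind_le_one (R w x)
              have q4 := ind_le_one (R w y)
              have q5 := ind_nonneg (R w x)
              have q6 := ind_nonneg (R w y)
              have : ind (R w x) * ind (R w y) ≤ 1 := by nlinarith
              nlinarith [hc0 (L ω) w]
            have q7 : 0 ≤ ∑ w, c (L ω) w * ind ((R w x ∧ R w y) ∧ ¬ B x y) :=
              Finset.sum_nonneg fun w _ => mul_nonneg (hc0 _ _) (ind_nonneg _)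
            linarith
          · rw [ind_not hb, zero_add]
            refine le_of_eq (Finset.sum_congr rfl fun w _ => ?_)
            rw [← ind_and]
            congr 2
            exact propext ⟨fun h => ⟨h, hb⟩, fun h => h.1⟩
        · push Not at hl
          have e1 : ∀ w, c (L ω) w = 0 := fun w => le_antisymm (hl w) (hc0 _ _)
          simp only [e1, zero_mul, Finset.sum_const_zero, add_zero, le_refl]
      · have hlw : IsLaw (c (L ω)) := by
          rw [hc]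
          exact cond_law (Z := L) hP hω
        have e0 : ∀ w, c (L ω) w * (∑ x, c (L ω) x * ind (R w x)) ^ 2 =
            c (L ω) w * ∑ x, c (L ω) x * ∑ y, c (L ω) y * (ind (R w x) * ind (R w y)) := by
          intro w
          congr 1
          rw [sq, Finset.sum_mul_sum]
          refine Finset.sum_congr rfl fun x _ => ?_
          rw [Finset.mul_sum]
          exact Finset.sum_congr rfl fun y _ => by ring
        simp only [e0]
        have e1 : ∑ w, c (L ω) w * ∑ x, c (L ω) x * ∑ y, c (L ω) y * (ind (R w x) * ind (R w y)) =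
            ∑ x, c (L ω) x * ∑ y, c (L ω) y * ∑ w, c (L ω) w * (ind (R w x) * ind (R w y)) := by
          simp only [Finset.mul_sum]
          rw [Finset.sum_comm]
          refine Finset.sum_congr rfl fun x _ => ?_
          rw [Finset.sum_comm]
          exact Finset.sum_congr rfl fun y _ => Finset.sum_congr rfl fun w _ => by ring
        rw [e1, ← Finset.sum_add_distrib]
        refine Finset.sum_le_sum fun x _ => ?_
        rw [← mul_add, ← Finset.sum_add_distrib]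
        refine mul_le_mul_of_nonneg_left (Finset.sum_le_sum fun y _ => ?_) (hc0 _ _)
        rw [← mul_add]
        refine mul_le_mul_of_nonneg_left ?_ (hc0 _ _)
        rw [hFv]
        by_cases hb : B x y
        · rw [ind_of hb]
          have : ∑ w, c (L ω) w * (ind (R w x) * ind (R w y)) ≤ 1 := by
            rw [← hlw.sum_one]
            refine Finset.sum_le_sum fun w _ => ?_
            have q3 := ind_le_one (R w x)
            have q4 := ind_le_one (R w y)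
            have q5 := ind_nonneg (R w x)
            have q6 := ind_nonneg (R w y)
            have : ind (R w x) * ind (R w y) ≤ 1 := by nlinarith
            nlinarith [hc0 (L ω) w]
          have q7 : 0 ≤ ∑ w, c (L ω) w * ind ((R w x ∧ R w y) ∧ ¬ B x y) :=
            Finset.sum_nonneg fun w _ => mul_nonneg (hc0 _ _) (ind_nonneg _)
          linarith
        · rw [ind_not hb, zero_add]
          refine le_of_eq (Finset.sum_congr rfl fun w _ => ?_)
          rw [← ind_and]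
          congr 2
          exact propext ⟨fun h => ⟨h, hb⟩, fun h => h.1⟩
    have k4 : ∑ ω, P ω * ∑ x, c (L ω) x * ∑ y, c (L ω) y * ind (B x y) =
        ∑ w, P w * ∑ ρ, Pool.Agent.H49.Ent.cond P L (L w) ρ * ind (B w ρ) := by
      have := sum_cc' (Z := L) hP (fun ℓ x => ∑ y, c ℓ y * ind (B x y))
      rw [hc] at this ⊢
      exact this
    have k5 : ∑ ω, P ω * (a ω) ^ 2 ≤ ∑ ω, P ω * ∑ x, c (L ω) x * ∑ y, c (L ω) y * ind (B x y) +
        ∑ ω, P ω * ∑ x, c (L ω) x * ∑ y, c (L ω) y * Fv (L ω) x y := by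
      rw [← k2, ← k1, ← Finset.sum_add_distrib]
      refine Finset.sum_le_sum fun ω _ => ?_
      rw [← mul_add]
      exact mul_le_mul_of_nonneg_left (k3 ω) (h0 ω)
    rw [k4] at k5
    linarith
  -- the best references
  have h5 : ∀ ℓ : Λ, (∃ ω, 0 < P ω ∧ L ω = ℓ) → ∃ z : Ω × Ω, (0 < c ℓ z.1 ∧ 0 < c ℓ z.2) ∧
      ∑ x, c ℓ x * ∑ y, c ℓ y * Fv ℓ x y ≤ Fv ℓ z.1 z.2 := by
    rintro ℓ ⟨ω, hω, rfl⟩
    have hlw : IsLaw (c (L ω)) := by
      rw [hc]
      exact cond_law (Z := L) hP hω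
    obtain ⟨z, k1, k2⟩ := avg_ge (prod_law hlw) (fun z => Fv (L ω) z.1 z.2)
    have k3 := sum_prod (c (L ω)) (Fv (L ω))
    refine ⟨z, ⟨?_, ?_⟩, ?_⟩
    · exact pos_of_mul_pos_left k1 (hc0 _ _)
    · exact pos_of_mul_pos_right k1 (hc0 _ _)
    · rw [← k3]
      exact k2
  have hne : Nonempty (Ω × Ω) := by
    by_contra hcon
    rw [not_nonempty_iff] at hcon
    have : ∑ ω : Ω, P ω = 0 := by
      refine Finset.sum_eq_zero fun ω _ => ?_
      exact (hcon.false (ω, ω)).elim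
    rw [hP.sum_one] at this
    exact one_ne_zero this
  obtain ⟨rr, hrr⟩ : ∃ rr : Λ → Ω × Ω, ∀ ℓ, (∃ ω, 0 < P ω ∧ L ω = ℓ) →
      (0 < c ℓ (rr ℓ).1 ∧ 0 < c ℓ (rr ℓ).2) ∧
        ∑ x, c ℓ x * ∑ y, c ℓ y * Fv ℓ x y ≤ Fv ℓ (rr ℓ).1 (rr ℓ).2 := by
    refine ⟨fun ℓ => if h : ∃ ω, 0 < P ω ∧ L ω = ℓ then (h5 ℓ h).choose else hne.some,
      fun ℓ h => ?_⟩
    simp only [dif_pos h]
    exact (h5 ℓ h).choose_spec
  refine ⟨n, fun ℓ => (rr ℓ).1, fun ℓ => (rr ℓ).2, h4.trans ?_⟩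
  have k1 := sum_cc' (Z := L) hP
    (fun ℓ w => ind ((R w (rr ℓ).1 ∧ R w (rr ℓ).2) ∧ ¬ B (rr ℓ).1 (rr ℓ).2))
  have k2 : ∑ ω, P ω * ∑ x, c (L ω) x * ∑ y, c (L ω) y * Fv (L ω) x y ≤
      ∑ w, P w * ind ((R w (rr (L w)).1 ∧ R w (rr (L w)).2) ∧
        ¬ B (rr (L w)).1 (rr (L w)).2) := by
    rw [← k1]
    refine Finset.sum_le_sum fun ω _ => ?_
    rcases (h0 ω).eq_or_lt with hω | hω
    · rw [← hω, zero_mul, zero_mul]
    refine mul_le_mul_of_nonneg_left ?_ hω.le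
    have := (hrr (L ω) ⟨ω, hω, rfl⟩).2
    rw [hFv, hc] at this
    rw [hFv, hc]
    exact this
  refine k2.trans (Finset.sum_le_sum fun w _ => ?_)
  rcases (h0 w).eq_or_lt with hw | hw
  · rw [← hw, zero_mul, zero_mul]
  refine mul_le_mul_of_nonneg_left (ind_mono ?_) hw.le
  rintro ⟨⟨q1, q2⟩, q3⟩
  rw [hR] at q1 q2
  obtain ⟨q4, q5⟩ := (hrr (L w) ⟨w, hw, rfl⟩).1
  obtain ⟨p1, p2⟩ := hcL w _ q4
  obtain ⟨p3, p4⟩ := hcL w _ q5
  have q6 : ∃ n, G (pt w) n := by
    have := q1.1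
    rw [hfl] at this
    exact this
  have q7 := hnG _ q6
  rw [hG] at q7
  exact ⟨q7.1, q1.2, q2.2, q3, hw, ⟨p2, p1⟩, p4, p3⟩

end Pool.COP
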