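import Pool.Agent.H1.DPL.Cop

/-!
# The own slope and two references on one line (COP): linear forms

The form `p2 (x_N - s x_u - t x_e) + p1 (x_u - a x_e) + p0 x_e`, visible and nearly conserved, in
the chart of its larger coefficient.
-/

set_option autoImplicit false

namespace Pool.COP

/-- The size of the conserved coefficient. -/
theorem big_hat {x y x' y' T μ : ℝ} (hT : 0 < T) (h : |x| ≤ |y|) (h1 : T ≤ |x| ∨ T ≤ |y|)
    (h2 : T ≤ |x'| ∨ T ≤ |y'|) (h3 : |x * y' - x' * y| ≤ μ) (h4 : μ ≤ T ^ 2 / 2) :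
    T ≤ |y| ∧ T / 2 ≤ |y'| := by
  have hy : T ≤ |y| := by
    rcases h1 with h1 | h1
    · exact h1.trans h
    · exact h1
  refine ⟨hy, ?_⟩
  rcases h2 with h2 | h2
  · have k1 : |x' * y| ≤ |x * y'| + μ := by
      have := abs_sub_abs_le_abs_sub (x' * y) (x * y')
      rw [abs_sub_comm] at this
      linarith
    rw [abs_mul, abs_mul] at k1
    have k2 : |x| * |y'| ≤ |y| * |y'| := mul_le_mul_of_nonneg_right h (abs_nonneg _)
    have k3 : T * |y| ≤ |x'| * |y| := mul_le_mul_of_nonneg_right h2 (abs_nonneg _)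
    have k4 : T * |y| ≤ |y| * |y'| + T ^ 2 / 2 := by linarith
    by_contra hcon
    push Not at hcon
    have k5 : |y| * |y'| < |y| * (T / 2) := mul_lt_mul_of_pos_left hcon (by linarith)
    have k6 : T * T ≤ T * |y| := mul_le_mul_of_nonneg_left hy hT.le
    nlinarith
  · linarith

/-- The frames of the form and of the conserved form agree. -/
theorem frame_close {α β γ α' β' γ' e₀ e z T μ1 μ0 D : ℝ} (hT : 0 < T) (hβ : T ≤ |β|)
    (hβ' : T / 2 ≤ |β'|) (h1 : |α * β' - α' * β| ≤ μ1)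
    (h0 : |(γ + α * e₀ + β * z) * β' - (γ' + α' * e₀ + β' * z) * β| ≤ μ0)
    (he : |e - e₀| ≤ D) :
    |α / β - α' / β'| ≤ 2 * μ1 / T ^ 2 ∧
      |(γ / β - γ' / β') + (α / β - α' / β') * e| ≤ 2 * μ0 / T ^ 2 + 2 * μ1 / T ^ 2 * D := by
  have b1 : 0 < |β| := by linarith
  have b2 : 0 < |β'| := by linarith
  have n1 : β ≠ 0 := abs_pos.1 b1
  have n2 : β' ≠ 0 := abs_pos.1 b2
  have hbb : T ^ 2 / 2 ≤ |β| * |β'| := by
    have := mul_le_mul hβ hβ' (by linarith) b1.le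
    nlinarith
  have gen : ∀ u μ : ℝ, |u| ≤ μ → |u / (β * β')| ≤ 2 * μ / T ^ 2 := by
    intro u μ hu
    rw [abs_div, abs_mul, div_le_div_iff₀ (by positivity) (by positivity)]
    have hμ : 0 ≤ μ := (abs_nonneg _).trans hu
    have k1 : |u| * T ^ 2 ≤ μ * T ^ 2 := mul_le_mul_of_nonneg_right hu (by positivity)
    have k2 : μ * (T ^ 2 / 2) ≤ μ * (|β| * |β'|) := mul_le_mul_of_nonneg_left hbb hμ
    nlinarith
  have e1 : α / β - α' / β' = (α * β' - α' * β) / (β * β') := by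
    field_simp
  have r1 : |α / β - α' / β'| ≤ 2 * μ1 / T ^ 2 := by
    rw [e1]
    exact gen _ _ h1
  refine ⟨r1, ?_⟩
  have e2 : (γ / β - γ' / β') + (α / β - α' / β') * e =
      ((γ + α * e₀ + β * z) * β' - (γ' + α' * e₀ + β' * z) * β) / (β * β') +
        (α / β - α' / β') * (e - e₀) := by
    field_simp
    ring
  rw [e2]
  refine (abs_add_le _ _).trans (add_le_add (gen _ _ h0) ?_)
  rw [abs_mul]
  exact mul_le_mul r1 he (abs_nonneg _) ((abs_nonneg _).trans r1)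

/-- The bounds of the normal form. -/
theorem frame_bound {α β γ eu eN : ℝ} (hβ : β ≠ 0) (h : |α| ≤ |β|) (hu : |eu| ≤ 2)
    (hN : |eN| ≤ 2) (h0 : β * eN + α * eu + γ = 0) : |α / β| ≤ 1 ∧ |γ / β| ≤ 4 := by
  have b1 : 0 < |β| := abs_pos.2 hβ
  have k1 : |α / β| ≤ 1 := by
    rw [abs_div, div_le_one b1]
    exact h
  refine ⟨k1, ?_⟩
  have e1 : γ / β = -(eN + α / β * eu) := by
    field_simp
    linarith
  rw [e1, abs_neg]
  refine (abs_add_le _ _).trans ?_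
  rw [abs_mul]
  have : |α / β| * |eu| ≤ 1 * 2 := mul_le_mul k1 hu (abs_nonneg _) (by norm_num)
  linarith

/-- The direction orthogonal to a vector. -/
noncomputable def hn (D : Fin 2 → ℝ) : Fin 2 → ℝ :=
  ![-D 1 / max |D 0| |D 1|, D 0 / max |D 0| |D 1|]

theorem hn0 (D : Fin 2 → ℝ) : hn D 0 = -D 1 / max |D 0| |D 1| := rfl
theorem hn1 (D : Fin 2 → ℝ) : hn D 1 = D 0 / max |D 0| |D 1| := rfl

theorem hn_abs {D : Fin 2 → ℝ} (h : 0 < max |D 0| |D 1|) :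
    (|hn D 0| ≤ 1 ∧ |hn D 1| ≤ 1) ∧ (|hn D 0| = 1 ∨ |hn D 1| = 1) := by
  rw [hn0, hn1, abs_div, abs_div, abs_neg, abs_of_pos h]
  refine ⟨⟨(div_le_one h).2 (le_max_right _ _), (div_le_one h).2 (le_max_left _ _)⟩, ?_⟩
  rcases le_total |D 0| |D 1| with k | k
  · left
    rw [max_eq_right k] at h ⊢
    exact div_self h.ne'
  · right
    rw [max_eq_left k] at h ⊢
    exact div_self h.ne'

/-- **The minors.** -/
theorem minors {n S S1 S2 : Fin 2 → ℝ} {g δ δ' K : ℝ} (hδ' : 0 < δ')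
    (hδ'1 : δ' ≤ 1)
    (hg : |g + ∑ i, n i * S i| ≤ 2 * δ) (h1 : |∑ i, n i * (S1 i - S i)| < δ)
    (h2 : |∑ i, n i * (S2 i - S i)| < δ) (hS1 : ∀ i, |S1 i| ≤ K)
    (hD : δ' ≤ max |S1 0 - S2 0| |S1 1 - S2 1|) :
    |n 0 * hn (fun i => S1 i - S2 i) 1 - n 1 * hn (fun i => S1 i - S2 i) 0| ≤ 2 * δ / δ' ∧
      (∀ i, |g * hn (fun i => S1 i - S2 i) i -
        -(∑ j, hn (fun i => S1 i - S2 i) j * S1 j) * n i| ≤ (2 * K + 3) * δ / δ') := by
  obtain ⟨D, hDd⟩ : ∃ D : Fin 2 → ℝ, D = fun i => S1 i - S2 i := ⟨_, rfl⟩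
  rw [← hDd]
  have hN : δ' ≤ max |D 0| |D 1| := by rw [hDd]; exact hD
  have hN0 : 0 < max |D 0| |D 1| := lt_of_lt_of_le hδ' hN
  have hδ0 : 0 < δ := (abs_nonneg _).trans_lt h1
  rw [Fin.sum_univ_two] at h1 h2 hg
  have k1 : |n 0 * D 0 + n 1 * D 1| ≤ 2 * δ := by
    have e : n 0 * D 0 + n 1 * D 1 = (n 0 * (S1 0 - S 0) + n 1 * (S1 1 - S 1)) -
        (n 0 * (S2 0 - S 0) + n 1 * (S2 1 - S 1)) := by
      rw [hDd]
      ring
    rw [e]
    refine (abs_sub _ _).trans ?_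
    linarith
  have k2 : |n 0 * hn D 1 - n 1 * hn D 0| ≤ 2 * δ / δ' := by
    have e : n 0 * hn D 1 - n 1 * hn D 0 = (n 0 * D 0 + n 1 * D 1) / max |D 0| |D 1| := by
      rw [hn0, hn1]
      field_simp
      ring
    rw [e, abs_div, abs_of_pos hN0]
    exact div_le_div₀ (by linarith) k1 hδ' hN
  obtain ⟨⟨a0, a1⟩, -⟩ := hn_abs hN0
  refine ⟨k2, fun i => ?_⟩
  rw [Fin.sum_univ_two]
  have hk0 : (0 : ℝ) ≤ K := (abs_nonneg _).trans (hS1 0)
  have d1 : δ ≤ δ / δ' := by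
    rw [le_div_iff₀ hδ']
    nlinarith
  obtain ⟨m, hm⟩ : ∃ m, m = n 0 * hn D 1 - n 1 * hn D 0 := ⟨_, rfl⟩
  rw [← hm] at k2
  have fin : ∀ (s x r : ℝ), |s| ≤ K → |x| ≤ 1 → |r| ≤ 3 * δ →
      |r * x + s * m| ≤ (2 * K + 3) * δ / δ' := by
    intro s x r hs hx hr
    refine (abs_add_le _ _).trans ?_
    rw [abs_mul, abs_mul]
    have q1 : |r| * |x| ≤ 3 * δ * 1 := mul_le_mul hr hx (abs_nonneg _) (by linarith)
    have q2 : |s| * |m| ≤ K * (2 * δ / δ') := mul_le_mul hs k2 (abs_nonneg _) hk0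
    have e : (2 * K + 3) * δ / δ' = 3 * (δ / δ') + K * (2 * δ / δ') := by ring
    rw [e]
    linarith
  have hr : |(g + (n 0 * S 0 + n 1 * S 1)) + (n 0 * (S1 0 - S 0) + n 1 * (S1 1 - S 1))| ≤
      3 * δ := by
    refine (abs_add_le _ _).trans ?_
    linarith
  fin_cases i
  · have e : g * hn D 0 - -(hn D 0 * S1 0 + hn D 1 * S1 1) * n 0 =
        ((g + (n 0 * S 0 + n 1 * S 1)) + (n 0 * (S1 0 - S 0) + n 1 * (S1 1 - S 1))) * hn D 0 +
          S1 1 * m := by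
      rw [hm]
      ring
    show |g * hn D 0 - -(hn D 0 * S1 0 + hn D 1 * S1 1) * n 0| ≤ _
    rw [e]
    exact fin _ _ _ (hS1 1) a0 hr
  · have e : g * hn D 1 - -(hn D 0 * S1 0 + hn D 1 * S1 1) * n 1 =
        ((g + (n 0 * S 0 + n 1 * S 1)) + (n 0 * (S1 0 - S 0) + n 1 * (S1 1 - S 1))) * hn D 1 +
          -S1 0 * m := by
      rw [hm]
      ring
    show |g * hn D 1 - -(hn D 0 * S1 0 + hn D 1 * S1 1) * n 1| ≤ _
    rw [e]
    exact fin _ _ _ (by rw [abs_neg]; exact hS1 0) a1 hr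

/-- The size of the second coefficient. -/
theorem second_big {n D : Fin 2 → ℝ} {δ δ' K θ : ℝ} (hδ' : 0 < δ') (hK : 0 < K)
    (hθ : θ = δ' / (4 * K)) (h4 : 4 * δ ≤ δ') (hn1' : ∃ i, |n i| = 1)
    (h1 : |n 0 * D 0 + n 1 * D 1| < 2 * δ) (hD0 : δ' ≤ |D 0|) (hD1 : |D 1| ≤ 2 * K)
    (hD0' : |D 0| ≤ 2 * K) (hθ1 : θ ≤ 1) :
    θ ≤ |n 1| ∧ θ ≤ |hn D 1| := by
  constructor
  · by_contra hcon
    push Not at hcon
    have k0 : |n 0| = 1 := by
      obtain ⟨i, hi⟩ := hn1'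
      fin_cases i
      · exact hi
      · exfalso
        have : |n 1| = 1 := hi
        linarith
    have k1 : |n 0 * D 0| ≤ |n 0 * D 0 + n 1 * D 1| + |n 1 * D 1| := by
      have := abs_sub (n 0 * D 0 + n 1 * D 1) (n 1 * D 1)
      rwa [add_sub_cancel_right] at this
    rw [abs_mul, abs_mul, k0, one_mul] at k1
    have k2 : |n 1| * |D 1| ≤ θ * (2 * K) := mul_le_mul hcon.le hD1 (abs_nonneg _)
      (by rw [hθ]; positivity)
    have k3 : θ * (2 * K) = δ' / 2 := by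
      rw [hθ]
      field_simp
      ring
    linarith
  · have hN : 0 < max |D 0| |D 1| := lt_of_lt_of_le (lt_of_lt_of_le hδ' hD0) (le_max_left _ _)
    rw [hn1, abs_div, abs_of_pos hN, hθ]
    refine div_le_div₀ (abs_nonneg _) hD0 hN ?_
    refine max_le ?_ ?_ <;> linarith

end Pool.COP
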