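import Pool.Agent.H1.DPL.CopX

/-!
# The own slope and two references on one line (COP): one family
-/

set_option autoImplicit false

namespace Pool.COP

open Finset Real
open Pool.Agent.H49.Ent Pool.Agent.H32.Dense Pool.STK Pool.KA Pool.KSAT Pool.K3 Pool.K2S
open Pool.KS6 hiding ind ind_nonneg
open Pool.PLN Pool.DPL

variable {J : ℕ}

/-- Probability and indicator functions. -/
theorem Pe_ind {Ω : Type} [Fintype Ω] (p : Ω → ℝ) (E : Ω → Prop) :
    Pe p E = ∑ ω, p ω * ind (E ω) := law_ind p E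

/-- Pigeonhole. -/
theorem pigeon {Ω T : Type} [Fintype Ω] [Fintype T] [Nonempty T] (p : Ω → ℝ)
    (E : Ω → Prop) (f : Ω → T) :
    ∃ c, Pe p E ≤ Fintype.card T * Pe p (fun ω => E ω ∧ f ω = c) := by
  classical
  by_contra hcon
  push Not at hcon
  have h1 : Pe p E = ∑ c, Pe p (fun ω => E ω ∧ f ω = c) := by
    simp only [Pe_ind]
    rw [Finset.sum_comm]
    refine Finset.sum_congr rfl fun ω _ => ?_
    rw [← Finset.mul_sum]
    congr 1
    have : ∀ c, ind (E ω ∧ f ω = c) = if f ω = c then ind (E ω) else 0 := by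
      intro c
      by_cases h : f ω = c
      · rw [if_pos h]
        congr 1
        exact propext ⟨fun k => k.1, fun k => ⟨k, h⟩⟩
      · rw [if_neg h, ind_not fun k => h k.2]
    simp only [this]
    rw [Finset.sum_ite_eq, if_pos (Finset.mem_univ _)]
  have h2 : ∑ c : T, Fintype.card T * Pe p (fun ω => E ω ∧ f ω = c) < ∑ _c : T, Pe p E := by
    obtain ⟨c⟩ := ‹Nonempty T›
    exact Finset.sum_lt_sum (fun c _ => (hcon c).le) ⟨c, Finset.mem_univ _, hcon c⟩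
  rw [← Finset.mul_sum, ← h1, Finset.sum_const, nsmul_eq_mul, Finset.card_univ] at h2
  exact lt_irrefl _ h2

/-- Rounding. -/
theorem rnd_near (n : ℕ) (x : ℝ) : |rnd n x - x| ≤ 1 / 2 ^ n := by
  have := floor_near n x
  rw [abs_sub_comm]
  exact this

/-- **One window of the double plateau.** -/
structure CIn (F : Fam 3 J) (A : F.Ω → Prop) (σ : Fin 3 → Fin 3) (v V H R : ℕ) (a s t : F.Ω → ℝ)
    (al nu kk bb : (Fin 3 → ℤ) × (ℕ × F.ζ) → ℝ) (B : ℝ) : Prop where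
  bij : Function.Bijective σ
  law : IsLaw (Pool.Agent.H49.Ent.cond F.p A True)
  det : Det (Pool.Agent.H49.Ent.cond F.p A True) (slam F v) (fun ω => (a ω, s ω, t ω))
  vdt : Det (Pool.Agent.H49.Ent.cond F.p A True) (Fam.pt F) (fun ω => (a ω, s ω, t ω))
  bd : ∀ ω, A ω → |s ω| ≤ B
  on1 : ∀ ω, A ω → |F.d ω (σ 1) - al (Fam.pt F ω) * F.d ω (σ 0) - nu (Fam.pt F ω)| ≤ B / 2 ^ R
  on2 : ∀ ω, A ω → |F.d ω (σ 2) - s ω * F.d ω (σ 1) - t ω * F.d ω (σ 0) - bb (Fam.pt F ω) -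
    kk (Fam.pt F ω) * F.d ω (σ 0)| ≤ B / 2 ^ (R + H)
  an1 : ∀ ω, A ω → |al (Fam.pt F ω) - a ω| ≤ B / 2 ^ V
  an2 : ∀ ω, A ω → |kk (Fam.pt F ω)| ≤ B / 2 ^ (V + H)
  odr : ∀ ω, A ω → |al (Fam.pt F ω)| ≤ 2 ∧
    |s ω * al (Fam.pt F ω) + t ω + kk (Fam.pt F ω)| ≤ 2

section one

variable {F : Fam 3 J} {A : F.Ω → Prop} {σ : Fin 3 → Fin 3} {v V H R X : ℕ} {a s t : F.Ω → ℝ}
  {al nu kk bb : (Fin 3 → ℤ) × (ℕ × F.ζ) → ℝ} {B : ℝ}

/-- The own slopes are known from the exact point. -/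
theorem own_near (ω : F.Ω) :
    |own F V H X a al kk ω 0 - 2 ^ V * (al (Fam.pt F ω) - a ω)| ≤ 1 / 2 ^ X ∧
      |own F V H X a al kk ω 1 - 2 ^ (V + H) * kk (Fam.pt F ω)| ≤ 1 / 2 ^ X := by
  constructor
  · change |2 ^ V * (rnd (V + X) (al (Fam.pt F ω)) - a ω) - 2 ^ V * (al (Fam.pt F ω) - a ω)| ≤ _
    have e : 2 ^ V * (rnd (V + X) (al (Fam.pt F ω)) - a ω) - 2 ^ V * (al (Fam.pt F ω) - a ω) =
        2 ^ V * (rnd (V + X) (al (Fam.pt F ω)) - al (Fam.pt F ω)) := by ring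
    have hp : (0 : ℝ) < 2 ^ V := by positivity
    rw [e, abs_mul, abs_of_pos hp]
    refine (mul_le_mul_of_nonneg_left (rnd_near _ _) hp.le).trans (le_of_eq ?_)
    rw [pow_add]
    field_simp
  · change |2 ^ (V + H) * rnd (V + H + X) (kk (Fam.pt F ω)) - 2 ^ (V + H) * kk (Fam.pt F ω)| ≤ _
    have hp : (0 : ℝ) < 2 ^ (V + H) := by positivity
    rw [← mul_sub, abs_mul, abs_of_pos hp]
    refine (mul_le_mul_of_nonneg_left (rnd_near _ _) hp.le).trans (le_of_eq ?_)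
    rw [pow_add (2 : ℝ) (V + H) X]
    field_simp

theorem CIn.own_le (h : CIn F A σ v V H R a s t al nu kk bb B) (ω : F.Ω) (hω : A ω) (i : Fin 2) :
    |own F V H X a al kk ω i| ≤ B + 1 := by
  obtain ⟨k1, k2⟩ := own_near (F := F) (V := V) (H := H) (X := X) (a := a) (al := al) (kk := kk) ω
  have hx : (1 : ℝ) / 2 ^ X ≤ 1 := by
    rw [div_le_one (by positivity)]
    exact one_le_pow₀ (by norm_num)
  have gen : ∀ x y : ℝ, |x - y| ≤ 1 / 2 ^ X → |y| ≤ B → |x| ≤ B + 1 := by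
    intro x y h1 h2
    have := abs_sub_abs_le_abs_sub x y
    linarith only [hx, h1, h2, this]
  fin_cases i
  · refine gen _ _ k1 ?_
    have := h.an1 ω hω
    rw [abs_mul, abs_of_pos (by positivity : (0 : ℝ) < 2 ^ V)]
    rwa [le_div_iff₀ (by positivity), mul_comm] at this
  · refine gen _ _ k2 ?_
    have := h.an2 ω hω
    rw [abs_mul, abs_of_pos (by positivity : (0 : ℝ) < 2 ^ (V + H))]
    rwa [le_div_iff₀ (by positivity), mul_comm] at this

/-- The bad pairs of samples of a line. -/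
def Bad (F : Fam 3 J) (V H X : ℕ) (a : F.Ω → ℝ) (al kk : (Fin 3 → ℤ) × (ℕ × F.ζ) → ℝ)
    (θ δ' : ℝ) (w ρ : F.Ω) : Prop :=
  (2 ^ H * θ ≤ 1 → |own F V H X a al kk w 1 - own F V H X a al kk ρ 1| < δ') ∧
    |own F V H X a al kk w 0 - own F V H X a al kk ρ 0| < δ'

/-- **(COP), one family.** -/
theorem cop_fam (h : CIn F A σ v V H R a s t al nu kk bb B) {δ δ' θ K ε₁ C : ℝ} {k P2 nB : ℕ}
    (hB : 1 ≤ B) (hK : K = B + 1) (hδ' : 0 < δ') (hδ'1 : δ' ≤ 1) (h4 : 4 * δ ≤ δ')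
    (hX : 1 / 2 ^ X ≤ δ) (hθ : θ = δ' / (4 * K)) (hε₁ : ε₁ = (2 * K + 3) * δ / δ')
    (hsiz : ε₁ ≤ θ ^ 2 / (2 * (1 + B) ^ 2))
    (hpre : 2 * (1 + B) ^ 4 * ε₁ / θ ^ 2 ≤ 1 / 2 ^ k)
    (hfin : 2 * B * (1 + B) * 2 ^ (V + k) ≤ C * θ * 2 ^ R) (hVR : V ≤ R)
    (hC : 9 + 4 * B ^ 2 ≤ C) (hJ : v + V + H + k ≤ J) (hP2 : P2 ≤ v + V + H + k) {ξ : Type}
    (pt : F.Ω → ξ) (amb : F.Ω → Fin nB)
    (hpt : Det (Pool.Agent.H49.Ent.cond F.p A True) (fun ω => (Fam.pt F ω, amb ω)) pt)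
    {n : ξ → Fin 2 → ℝ} {r r' : ((Fin 3 → ℝ) × (Fin 3 → ℝ)) × F.ζ × ℕ → F.Ω}
    (hE : 0 < Pe (Pool.Agent.H49.Ent.cond F.p A True)
      (CopE (Pool.Agent.H49.Ent.cond F.p A True) (slam F v) pt (own F V H X a al kk) δ
        (Bad F V H X a al kk θ δ') n r r')) :
    ∃ iu iN : Fin 3, (∀ j : Fin 3, j = σ 0 ∨ j = iu ∨ j = iN) ∧ ∃ Bv : F.Ω → Prop, Sub Bv A ∧
      mC C / (2 * nB) * (Pe (Pool.Agent.H49.Ent.cond F.p A True)
        (CopE (Pool.Agent.H49.Ent.cond F.p A True) (slam F v) pt (own F V H X a al kk) δ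
          (Bad F V H X a al kk θ δ') n r r') * Pe F.p A) ≤ Pe F.p Bv ∧
      LABq F J (σ 0) iu iN v 0 P2 2 Bv := by
  classical
  obtain ⟨P, hP⟩ : ∃ P, P = Pool.Agent.H49.Ent.cond F.p A True := ⟨_, rfl⟩
  obtain ⟨S, hS⟩ : ∃ S, S = own F V H X a al kk := ⟨_, rfl⟩
  obtain ⟨E, hEd⟩ : ∃ E, E = CopE P (slam F v) pt S δ (Bad F V H X a al kk θ δ') n r r' :=
    ⟨_, rfl⟩
  rw [← hP, ← hS, ← hEd] at hE
  rw [← hP, ← hS, ← hEd]
  have hPA : ∀ ω, 0 < P ω → A ω := fun ω hω => by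
    rw [hP] at hω
    have := ((cond_pos_iff F.isLaw.nonneg A True ω).1 hω).2
    simpa using this
  have hA := pos_of_cond F.isLaw h.law
  have hK1 : 2 ≤ K := by rw [hK]; linarith only [hB]
  have hθ0 : 0 < θ := by rw [hθ]; positivity
  have hθ1 : θ ≤ 1 := by
    rw [hθ, div_le_one (by positivity)]
    linarith only [hB, hK, hδ'1]
  have hδ0 : 0 < δ := lt_of_lt_of_le (by positivity) hX
  have hε0 : 0 ≤ ε₁ := by rw [hε₁]; positivity
  -- the data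
  obtain ⟨S1, hS1⟩ : ∃ S1 : F.Ω → Fin 2 → ℝ, S1 = fun ω => S (r (slam F v ω)) := ⟨_, rfl⟩
  obtain ⟨S2, hS2⟩ : ∃ S2 : F.Ω → Fin 2 → ℝ, S2 = fun ω => S (r' (slam F v ω)) := ⟨_, rfl⟩
  obtain ⟨D, hD⟩ : ∃ D : F.Ω → Fin 2 → ℝ, D = fun ω i => S1 ω i - S2 ω i := ⟨_, rfl⟩
  obtain ⟨gh, hgh⟩ : ∃ gh : F.Ω → ℝ, gh = fun ω => -(∑ j, hn (D ω) j * S1 ω j) := ⟨_, rfl⟩
  obtain ⟨g, hg⟩ : ∃ g : F.Ω → ℝ, g = fun ω => -(n (pt ω) 0 * (2 ^ V * (al (Fam.pt F ω) - a ω)) +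
      n (pt ω) 1 * (2 ^ (V + H) * kk (Fam.pt F ω))) := ⟨_, rfl⟩
  have key : ∀ ω, E ω → AIn B θ ε₁ C H V k R (a ω) (s ω) (t ω) (al (Fam.pt F ω))
      (kk (Fam.pt F ω)) (nu (Fam.pt F ω)) (bb (Fam.pt F ω)) (F.d ω (σ 0)) (F.d ω (σ 1))
      (F.d ω (σ 2)) (n (pt ω) 0) (n (pt ω) 1) (g ω) (hn (D ω) 0) (hn (D ω) 1) (gh ω) := by
    intro ω hω
    rw [hEd] at hω
    obtain ⟨⟨z1, z2⟩, z3, z4, z5, z6, ⟨z7, z8⟩, z9, z10⟩ := hω
    have hAω := hPA ω z6
    have hA1 := hPA _ z7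
    have hA2 := hPA _ z9
    have b1 : ∀ i, |S1 ω i| ≤ K := fun i => by
      rw [hS1, hS, hK]
      exact h.own_le _ hA1 i
    have b2 : ∀ i, |S2 ω i| ≤ K := fun i => by
      rw [hS2, hS, hK]
      exact h.own_le _ hA2 i
    have hDle : ∀ i, |D ω i| ≤ 2 * K := fun i => by
      rw [hD]
      have := abs_sub (S1 ω i) (S2 ω i)
      have := b1 i
      have := b2 i
      simp only
      linarith
    have z5' : ¬ ((2 ^ H * θ ≤ 1 → |D ω 1| < δ') ∧ |D ω 0| < δ') := by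
      intro hcon
      apply z5
      rw [hD, hS1, hS2, hS] at hcon
      exact hcon
    have hmax : δ' ≤ max |D ω 0| |D ω 1| := by
      by_contra hcon
      push Not at hcon
      obtain ⟨q1, q2⟩ := max_lt_iff.1 hcon
      exact z5' ⟨fun _ => q2, q1⟩
    have hg2 : |g ω + ∑ i, n (pt ω) i * S ω i| ≤ 2 * δ := by
      rw [Fin.sum_univ_two, hg, hS]
      obtain ⟨k1, k2⟩ := own_near (F := F) (V := V) (H := H) (X := X) (a := a) (al := al)
        (kk := kk) ω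
      have e : -(n (pt ω) 0 * (2 ^ V * (al (Fam.pt F ω) - a ω)) +
          n (pt ω) 1 * (2 ^ (V + H) * kk (Fam.pt F ω))) +
          (n (pt ω) 0 * own F V H X a al kk ω 0 + n (pt ω) 1 * own F V H X a al kk ω 1) =
          n (pt ω) 0 * (own F V H X a al kk ω 0 - 2 ^ V * (al (Fam.pt F ω) - a ω)) +
          n (pt ω) 1 * (own F V H X a al kk ω 1 - 2 ^ (V + H) * kk (Fam.pt F ω)) := by ring
      simp only
      rw [e]
      refine (abs_add_le _ _).trans ?_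
      rw [abs_mul, abs_mul]
      have q1 := mul_le_mul (z1 0) (k1.trans hX) (abs_nonneg _) (by norm_num)
      have q2 := mul_le_mul (z1 1) (k2.trans hX) (abs_nonneg _) (by norm_num)
      linarith only [q1, q2]
    have z3' : |∑ i, n (pt ω) i * (S1 ω i - S ω i)| < δ := by rw [hS1]; exact z3
    have z4' : |∑ i, n (pt ω) i * (S2 ω i - S ω i)| < δ := by rw [hS2]; exact z4
    obtain ⟨m1, m2⟩ := minors (n := n (pt ω)) (S := S ω) (S1 := S1 ω) (S2 := S2 ω) (g := g ω)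
      hδ' hδ'1 hg2 z3' z4' b1 (by rw [hD] at hmax; exact hmax)
    have eD : (fun i => S1 ω i - S2 ω i) = D ω := by rw [hD]
    rw [eD] at m1 m2
    have hn2 : |n (pt ω) 0 * D ω 0 + n (pt ω) 1 * D ω 1| < 2 * δ := by
      rw [Fin.sum_univ_two] at z3' z4'
      have e : n (pt ω) 0 * D ω 0 + n (pt ω) 1 * D ω 1 =
          (n (pt ω) 0 * (S1 ω 0 - S ω 0) + n (pt ω) 1 * (S1 ω 1 - S ω 1)) -
          (n (pt ω) 0 * (S2 ω 0 - S ω 0) + n (pt ω) 1 * (S2 ω 1 - S ω 1)) := by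
        rw [hD]
        ring
      rw [e]
      refine (abs_sub _ _).trans_lt ?_
      linarith only [z3', z4']
    have hbig : (2 ^ H * θ ≤ |n (pt ω) 0| ∨ θ ≤ |n (pt ω) 1|) ∧
        (2 ^ H * θ ≤ |hn (D ω) 0| ∨ θ ≤ |hn (D ω) 1|) := by
      by_cases hc : 2 ^ H * θ ≤ 1
      · constructor
        · obtain ⟨i, hi⟩ := z2
          fin_cases i
          · left
            change |n (pt ω) 0| = 1 at hi
            rw [hi]
            exact hc
          · right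
            change |n (pt ω) 1| = 1 at hi
            rw [hi]
            exact hθ1
        · obtain ⟨-, hi⟩ := hn_abs (lt_of_lt_of_le hδ' hmax)
          rcases hi with hi | hi
          · left
            rw [hi]
            exact hc
          · right
            rw [hi]
            exact hθ1
      · have q0 : δ' ≤ |D ω 0| := by
          by_contra hcon
          push Not at hcon
          exact z5' ⟨fun k => (hc k).elim, hcon⟩
        obtain ⟨q1, q2⟩ := second_big (n := n (pt ω)) (D := D ω) hδ' (by linarith only [hB, hK, hδ'1, h4, hδ0]) hθ h4 z2 hn2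
          q0 (hDle 1) (hDle 0) hθ1
        exact ⟨Or.inr q1, Or.inr q2⟩
    have ε₁le : 2 * δ / δ' ≤ ε₁ := by
      rw [hε₁]
      refine div_le_div_of_nonneg_right ?_ hδ'.le
      nlinarith only [hδ0, hB, hK, hδ', h4]
    refine ⟨hB, hθ0, hε0, h.bd ω hAω, (h.odr ω hAω).1, (h.odr ω hAω).2, h.an1 ω hAω,
      h.an2 ω hAω, by rw [hg], z1 0, z1 1, hbig.1, hbig.2, m1.trans ε₁le, ?_, ?_, hsiz, hpre,
      F.dir ω _, h.on1 ω hAω, h.on2 ω hAω, hfin, hVR, by linarith only [hδ'1, h4, hC, hδ0]⟩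
    · rw [hgh, hε₁]
      exact m2 0
    · rw [hgh, hε₁]
      exact m2 1
  -- the chart and the ambiguity
  obtain ⟨ch, hch⟩ : ∃ ch : F.Ω → Prop, ch = fun ω =>
      |cU H (s ω) (n (pt ω) 0) (n (pt ω) 1)| ≤ |cN H (n (pt ω) 1)| := ⟨_, rfl⟩
  have hPn : ∀ ω, 0 ≤ P ω := fun ω => by rw [hP]; exact cond_nonneg F.isLaw.nonneg _ _ _
  have hne : Nonempty (Fin nB × Bool) := by
    have : Nonempty F.Ω := by
      by_contra hcon
      rw [not_nonempty_iff] at hcon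
      rw [Pe_ind] at hE
      have : ∑ ω : F.Ω, P ω * ind (E ω) = 0 := Finset.sum_eq_zero fun ω _ => (hcon.false ω).elim
      linarith only [hE, this]
    obtain ⟨ω⟩ := this
    exact ⟨(amb ω, true)⟩
  obtain ⟨⟨i, b⟩, hib⟩ := pigeon P E (fun ω => (amb ω, decide (ch ω)))
  have hcard : (Fintype.card (Fin nB × Bool) : ℝ) = 2 * nB := by
    rw [Fintype.card_prod, Fintype.card_fin, Fintype.card_bool]
    push_cast
    ring
  rw [hcard] at hib
  obtain ⟨E', hE'⟩ : ∃ E' : F.Ω → Prop, E' = fun ω => E ω ∧ (amb ω, decide (ch ω)) = (i, b) :=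
    ⟨_, rfl⟩
  rw [← hE'] at hib
  have hnB : (0 : ℝ) < 2 * nB := by
    by_contra hcon
    push Not at hcon
    have : 2 * (nB : ℝ) * Pe P E' ≤ 0 := mul_nonpos_of_nonpos_of_nonneg hcon (by
      rw [Pe_ind]
      exact Finset.sum_nonneg fun ω _ => mul_nonneg (hPn ω) (ind_nonneg _))
    linarith only [hE, hib, this]
  have hE'0 : 0 < Pe P E' := by
    by_contra hcon
    push Not at hcon
    nlinarith only [hE, hib, hcon]
  have hE'A : ∀ ω, E' ω → A ω := fun ω hω => by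
    rw [hE', hEd] at hω
    exact hPA ω hω.1.2.2.2.2.1
  have hE'P : ∀ ω, E' ω → 0 < P ω := fun ω hω => by
    rw [hE', hEd] at hω
    exact hω.1.2.2.2.2.1
  have hPe : Pe P E' * Pe F.p A = Pe F.p E' := by
    have e1 : Pe P E' = Pe F.p (fun ω => A ω ∧ E' ω) / Pe F.p A := by
      rw [hP]
      exact Pe_cond E'
    have e2 : (fun ω => A ω ∧ E' ω) = E' := by
      funext ω
      exact propext ⟨fun k => k.2, fun k => ⟨hE'A ω k, k⟩⟩
    rw [e1, e2]
    field_simp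
  have hE'1 : 0 < Pe F.p E' := by
    rw [← hPe]
    positivity
  have hvis0 : ∀ ω ω', E' ω → E' ω' → ptq F J ω = ptq F J ω' →
      (Fam.pt F ω = Fam.pt F ω' ∧ pt ω = pt ω') ∧ a ω = a ω' ∧ s ω = s ω' ∧ t ω = t ω' := by
    intro ω ω' hω hω' hp
    have hp' : Fam.pt F ω = Fam.pt F ω' := hp
    have q1 := hE'P ω hω
    have q2 := hE'P ω' hω'
    have q3 : amb ω = amb ω' := by
      rw [hE'] at hω hω'
      have r1 := (Prod.ext_iff.1 hω.2).1
      have r2 := (Prod.ext_iff.1 hω'.2).1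
      exact r1.trans r2.symm
    rw [hP] at q1 q2
    have q4 : pt ω = pt ω' := hpt ω ω' q1 q2 (Prod.ext hp' q3)
    have q5 := h.vdt ω ω' q1 q2 hp'
    simp only [Prod.mk.injEq] at q5
    exact ⟨⟨hp', q4⟩, q5⟩
  have hcon0 : ∀ ω ω', E' ω → E' ω' → slam F v ω = slam F v ω' →
      (D ω = D ω' ∧ S1 ω = S1 ω') ∧ a ω = a ω' ∧ s ω = s ω' ∧ t ω = t ω' := by
    intro ω ω' hω hω' hp
    have q1 := hE'P ω hω
    have q2 := hE'P ω' hω'
    rw [hP] at q1 q2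
    have q5 := h.det ω ω' q1 q2 hp
    simp only [Prod.mk.injEq] at q5
    have q6 : S1 ω = S1 ω' := by rw [hS1]; simp only [hp]
    have q7 : S2 ω = S2 ω' := by rw [hS2]; simp only [hp]
    refine ⟨⟨?_, q6⟩, q5⟩
    rw [hD]
    simp only [q6, q7]
  have hij : ∀ j : Fin 3, j = σ 0 ∨ j = σ 1 ∨ j = σ 2 := by
    intro j
    obtain ⟨i, rfl⟩ := h.bij.2 j
    fin_cases i <;> simp
  have hE'E : ∀ ω, E' ω → E ω := fun ω hω => by rw [hE'] at hω; exact hω.1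
  have fine : ∀ Bv : F.Ω → Prop, mC C * Pe F.p E' ≤ Pe F.p Bv →
      mC C / (2 * nB) * (Pe P E * Pe F.p A) ≤ Pe F.p Bv := by
    intro Bv hBv
    refine le_trans ?_ hBv
    rw [← hPe]
    have k1 : Pe P E / (2 * nB) ≤ Pe P E' := by
      rw [div_le_iff₀ hnB]
      linarith only [hib]
    have k2 := mul_le_mul_of_nonneg_left (mul_le_mul_of_nonneg_right k1 hA.le) (mC_pos C).le
    refine le_trans (le_of_eq ?_) k2
    ring
  cases b with
  | true =>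
    have hab : ∀ ω, E' ω → |cU H (s ω) (n (pt ω) 0) (n (pt ω) 1)| ≤ |cN H (n (pt ω) 1)| := by
      intro ω hω
      rw [hE'] at hω
      have := (Prod.ext_iff.1 hω.2).2
      simp only [decide_eq_true_eq] at this
      rw [hch] at this
      exact this
    obtain ⟨Bv, k1, k2, k3⟩ := lab_gen F hE'1 (i0 := σ 0) (iu := σ 1) (iN := σ 2) hij (v := v)
      (V := V) (H := H) (k := k) (P2 := P2) (C := C) (by nlinarith only [hC])
      (e := fun ω => clp (a ω))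
      (c := fun ω => cE H V (a ω) (t ω) (n (pt ω) 0) (n (pt ω) 1) (g ω) / cN H (n (pt ω) 1))
      (s := fun ω => cU H (s ω) (n (pt ω) 0) (n (pt ω) 1) / cN H (n (pt ω) 1))
      (nuU := fun ω => nu (Fam.pt F ω))
      (nuN := fun ω => cB H (nu (Fam.pt F ω)) (bb (Fam.pt F ω)) (n (pt ω) 0) (n (pt ω) 1) /
        cN H (n (pt ω) 1))
      (c' := fun ω => cE H V (a ω) (t ω) (hn (D ω) 0) (hn (D ω) 1) (gh ω) /
        cN H (hn (D ω) 1))
      (s' := fun ω => cU H (s ω) (hn (D ω) 0) (hn (D ω) 1) / cN H (hn (D ω) 1))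
      (by
        intro ω ω' hω hω' hp
        obtain ⟨⟨p1, p2⟩, p3, p4, p5⟩ := hvis0 ω ω' hω hω' hp
        rw [hg]
        simp only [p1, p2, p3, p4, p5, and_self])
      (by
        intro ω ω' hω hω' hp
        obtain ⟨⟨p1, p2⟩, p3, p4, p5⟩ := hcon0 ω ω' hω hω' hp
        rw [hgh]
        simp only [p1, p2, p3, p4, p5, and_self])
      (fun ω _ => clp_le _)
      (fun ω hω => ((key ω (hE'E ω hω)).chart1 (hab ω hω)).1.2)
      (fun ω hω => ((key ω (hE'E ω hω)).chart1 (hab ω hω)).1.1) hJ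
      (fun ω hω => ((key ω (hE'E ω hω)).chart1 (hab ω hω)).2.2.2.2)
      (fun ω hω => ((key ω (hE'E ω hω)).chart1 (hab ω hω)).2.2.2.1)
      (fun ω hω => ((key ω (hE'E ω hω)).chart1 (hab ω hω)).2.1)
      (fun ω hω => ((key ω (hE'E ω hω)).chart1 (hab ω hω)).2.2.1) hP2
    exact ⟨σ 1, σ 2, hij, Bv, fun ω hω => hE'A ω (k1 ω hω), fine Bv k2, k3⟩
  | false =>
    have hab : ∀ ω, E' ω → |cN H (n (pt ω) 1)| ≤ |cU H (s ω) (n (pt ω) 0) (n (pt ω) 1)| := by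
      intro ω hω
      rw [hE'] at hω
      have := (Prod.ext_iff.1 hω.2).2
      simp only [decide_eq_false_iff_not] at this
      rw [hch] at this
      push Not at this
      exact this.le
    have hij' : ∀ j : Fin 3, j = σ 0 ∨ j = σ 2 ∨ j = σ 1 := by
      intro j
      rcases hij j with h | h | h
      · exact Or.inl h
      · exact Or.inr (Or.inr h)
      · exact Or.inr (Or.inl h)
    obtain ⟨Bv, k1, k2, k3⟩ := lab_gen F hE'1 (i0 := σ 0) (iu := σ 2) (iN := σ 1) hij' (v := v)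
      (V := V) (H := H) (k := k) (P2 := P2) (C := C) (by nlinarith only [hC])
      (e := fun ω => clp (s ω * a ω + t ω))
      (c := fun ω => cE H V (a ω) (t ω) (n (pt ω) 0) (n (pt ω) 1) (g ω) /
        cU H (s ω) (n (pt ω) 0) (n (pt ω) 1))
      (s := fun ω => cN H (n (pt ω) 1) / cU H (s ω) (n (pt ω) 0) (n (pt ω) 1))
      (nuU := fun ω => s ω * nu (Fam.pt F ω) + bb (Fam.pt F ω))
      (nuN := fun ω => cB H (nu (Fam.pt F ω)) (bb (Fam.pt F ω)) (n (pt ω) 0) (n (pt ω) 1) /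
        cU H (s ω) (n (pt ω) 0) (n (pt ω) 1))
      (c' := fun ω => cE H V (a ω) (t ω) (hn (D ω) 0) (hn (D ω) 1) (gh ω) /
        cU H (s ω) (hn (D ω) 0) (hn (D ω) 1))
      (s' := fun ω => cN H (hn (D ω) 1) / cU H (s ω) (hn (D ω) 0) (hn (D ω) 1))
      (by
        intro ω ω' hω hω' hp
        obtain ⟨⟨p1, p2⟩, p3, p4, p5⟩ := hvis0 ω ω' hω hω' hp
        rw [hg]
        simp only [p1, p2, p3, p4, p5, and_self])
      (by
        intro ω ω' hω hω' hp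
        obtain ⟨⟨p1, p2⟩, p3, p4, p5⟩ := hcon0 ω ω' hω hω' hp
        rw [hgh]
        simp only [p1, p2, p3, p4, p5, and_self])
      (fun ω _ => clp_le _)
      (fun ω hω => ((key ω (hE'E ω hω)).chart2 (hab ω hω)).1.2)
      (fun ω hω => ((key ω (hE'E ω hω)).chart2 (hab ω hω)).1.1) hJ
      (fun ω hω => ((key ω (hE'E ω hω)).chart2 (hab ω hω)).2.2.2.2)
      (fun ω hω => ((key ω (hE'E ω hω)).chart2 (hab ω hω)).2.2.2.1)
      (fun ω hω => ((key ω (hE'E ω hω)).chart2 (hab ω hω)).2.1)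
      (fun ω hω => ((key ω (hE'E ω hω)).chart2 (hab ω hω)).2.2.1) hP2
    exact ⟨σ 2, σ 1, hij', Bv, fun ω hω => hE'A ω (k1 ω hω), fine Bv k2, k3⟩

end one

end Pool.COP
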