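import Pool.Agent.H1.DPL.CopA
import Pool.Agent.H9.S6.H7R
import Pool.Agent.H8.DPL.Stmt

/-!
# The own slope and two references on one line (COP): the label of the plank
-/

set_option autoImplicit false

namespace Pool.COP

open Finset Real
open Pool.Agent.H49.Ent Pool.Agent.H32.Dense Pool.STK Pool.KA Pool.KSAT Pool.K3 Pool.K2S Pool.KS6
open Pool.PLN

/-- A number moved into `[-2, 2]`. -/
noncomputable def clp (x : ℝ) : ℝ := max (-2) (min x 2)

theorem clp_le (x : ℝ) : |clp x| ≤ 2 := by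
  unfold clp
  rw [abs_le]
  exact ⟨le_max_left _ _, max_le (by norm_num) (min_le_right _ _)⟩

theorem clp_near {x y D : ℝ} (hy : |y| ≤ 2) (h : |x - y| ≤ D) : |clp x - y| ≤ D := by
  unfold clp
  rw [abs_le] at *
  rcases le_total x 2 with h1 | h1
  · rw [min_eq_left h1]
    rcases le_total (-2) x with h2 | h2
    · rw [max_eq_right h2]
      exact ⟨h.1, h.2⟩
    · rw [max_eq_left h2]
      exact ⟨by linarith [h.1], by linarith [hy.1, h.1, h.2]⟩
  · rw [min_eq_right h1, max_eq_right (by norm_num)]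
    exact ⟨by linarith [hy.2, h.1, h.2], by linarith [h.2]⟩

theorem clp_dist {x y D : ℝ} (hy : |y| ≤ 2) (h : |x - y| ≤ D) : |clp x - x| ≤ D := by
  unfold clp
  rw [abs_le] at *
  rcases le_total x 2 with h1 | h1
  · rw [min_eq_left h1]
    rcases le_total (-2) x with h2 | h2
    · rw [max_eq_right h2, sub_self]
      exact ⟨by linarith [h.1, h.2], by linarith [h.1, h.2]⟩
    · rw [max_eq_left h2]
      exact ⟨by linarith [h.1, h.2], by linarith [hy.1, h.1]⟩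
  · rw [min_eq_right h1, max_eq_right (by norm_num)]
    exact ⟨by linarith [hy.2, h.2], by linarith [h.1, h.2]⟩

/-- A function of a function. -/
theorem exists_fun {Ω U Y : Type} [Inhabited Y] (A : Ω → Prop) (f : Ω → U) (y : Ω → Y)
    (h : ∀ ω ω', A ω → A ω' → f ω = f ω' → y ω = y ω') :
    ∃ φ : U → Y, ∀ ω, A ω → y ω = φ (f ω) := by
  classical
  refine ⟨fun u => if h : ∃ ω, A ω ∧ f ω = u then y h.choose else default, fun ω hω => ?_⟩
  have h' : ∃ ω', A ω' ∧ f ω' = f ω := ⟨ω, hω, rfl⟩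
  simp only [dif_pos h']
  exact (h _ _ h'.choose_spec.1 hω h'.choose_spec.2).symm

/-- The base velocity. -/
def dbv (i0 iu : Fin 3) (s nuU nuN : ℝ) (j : Fin 3) : ℝ :=
  if j = i0 then 0 else if j = iu then nuU else nuN - s * nuU

/-- Incidence with the plank of a frame at the exact point. -/
theorem inc_of {i0 iu iN : Fin 3} (hi : ∀ j : Fin 3, j = i0 ∨ j = iu ∨ j = iN) {W lam P J : ℕ}
    {C e c s t nuU nuN : ℝ} {x d x0 : Fin 3 → ℝ} (he : |e| ≤ 2) (hc : |c| ≤ 4) (hs : |s| ≤ 4)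
    (hx : ∀ j, |x j - x0 j| ≤ 1 / 2 ^ J) (hWl : W + lam ≤ J) (hP : P ≤ J) (hC : 9 ≤ C)
    (hd : |d i0| ≤ 1) (hu : |d iu - e * d i0 - nuU| ≤ C / 2 ^ lam)
    (hN : |c * d i0 + s * d iu + d iN - nuN| ≤ C * 2 ^ W / 2 ^ P) :
    Inc i0 iu iN W lam P C ⟨e, c, s, fun j => x0 j - t * dbv i0 iu s nuU nuN j,
      dbv i0 iu s nuU nuN⟩ t x d := by
  obtain ⟨h1, h2, h3⟩ := three hi
  have pow : ∀ {n : ℕ}, n ≤ J → (1 : ℝ) / 2 ^ J ≤ 1 / 2 ^ n := fun {n} hn =>
    one_div_le_one_div_of_le (by positivity) (pow_le_pow_right₀ (by norm_num) hn)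
  have b0 : dbv i0 iu s nuU nuN i0 = 0 := by unfold dbv; rw [if_pos rfl]
  have b1 : dbv i0 iu s nuU nuN iu = nuU := by unfold dbv; rw [if_neg h1, if_pos rfl]
  have b2 : dbv i0 iu s nuU nuN iN = nuN - s * nuU := by
    unfold dbv
    rw [if_neg h2, if_neg h3]
  have hxj := hx i0
  have hxu := hx iu
  have hxn := hx iN
  refine ⟨he, hc, hs, ?_, ?_, ?_, ?_, ?_, ?_⟩
  · change |x i0 - (x0 i0 - t * dbv i0 iu s nuU nuN i0 + t * dbv i0 iu s nuU nuN i0)| ≤ _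
    rw [sub_add_cancel]
    refine hxj.trans ((pow (by omega : W ≤ J)).trans ?_)
    exact div_le_div_of_nonneg_right (by linarith) (by positivity)
  · change |fu i0 iu e x - fu i0 iu e (fun i => x0 i - t * dbv i0 iu s nuU nuN i +
      t * dbv i0 iu s nuU nuN i)| ≤ _
    have e1 : fu i0 iu e x - fu i0 iu e (fun i => x0 i - t * dbv i0 iu s nuU nuN i +
        t * dbv i0 iu s nuU nuN i) = (x iu - x0 iu) - e * (x i0 - x0 i0) := by
      unfold fu
      ring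
    rw [e1]
    have k1 : |(x iu - x0 iu) - e * (x i0 - x0 i0)| ≤ 9 * (1 / 2 ^ J) := by
      refine (abs_sub _ _).trans ?_
      rw [abs_mul]
      have : |e| * |x i0 - x0 i0| ≤ 2 * (1 / 2 ^ J) := mul_le_mul he hxj (abs_nonneg _)
        (by norm_num)
      have hp : (0 : ℝ) ≤ 1 / 2 ^ J := by positivity
      linarith
    refine k1.trans ?_
    have k2 := pow hWl
    have e2 : C / 2 ^ (W + lam) = C * (1 / 2 ^ (W + lam)) := by ring
    rw [e2]
    have hp : (0 : ℝ) ≤ 1 / 2 ^ J := by positivity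
    exact mul_le_mul hC k2 hp (by linarith)
  · change |fn i0 iu iN c s x - fn i0 iu iN c s (fun i => x0 i - t * dbv i0 iu s nuU nuN i +
      t * dbv i0 iu s nuU nuN i)| ≤ _
    have e1 : fn i0 iu iN c s x - fn i0 iu iN c s (fun i => x0 i - t * dbv i0 iu s nuU nuN i +
        t * dbv i0 iu s nuU nuN i) = c * (x i0 - x0 i0) + s * (x iu - x0 iu) +
          (x iN - x0 iN) := by
      unfold fn
      ring
    rw [e1]
    have k1 : |c * (x i0 - x0 i0) + s * (x iu - x0 iu) + (x iN - x0 iN)| ≤ 9 * (1 / 2 ^ J) := by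
      refine (abs_add_le _ _).trans ?_
      have q0 := abs_add_le (c * (x i0 - x0 i0)) (s * (x iu - x0 iu))
      rw [abs_mul, abs_mul] at q0
      have q1 : |c| * |x i0 - x0 i0| ≤ 4 * (1 / 2 ^ J) := mul_le_mul hc hxj (abs_nonneg _)
        (by norm_num)
      have q2 : |s| * |x iu - x0 iu| ≤ 4 * (1 / 2 ^ J) := mul_le_mul hs hxu (abs_nonneg _)
        (by norm_num)
      linarith
    refine k1.trans ?_
    have k2 := pow hP
    have e2 : C / 2 ^ P = C * (1 / 2 ^ P) := by ring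
    rw [e2]
    have hp : (0 : ℝ) ≤ 1 / 2 ^ J := by positivity
    exact mul_le_mul hC k2 hp (by linarith)
  · change |d i0 - dbv i0 iu s nuU nuN i0| ≤ C
    rw [b0, sub_zero]
    linarith
  · change |fu i0 iu e d - fu i0 iu e (dbv i0 iu s nuU nuN)| ≤ _
    have e1 : fu i0 iu e d - fu i0 iu e (dbv i0 iu s nuU nuN) = d iu - e * d i0 - nuU := by
      unfold fu
      rw [b0, b1]
      ring
    rw [e1]
    exact hu
  · change |fn i0 iu iN c s d - fn i0 iu iN c s (dbv i0 iu s nuU nuN)| ≤ _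
    have e1 : fn i0 iu iN c s d - fn i0 iu iN c s (dbv i0 iu s nuU nuN) =
        c * d i0 + s * d iu + d iN - nuN := by
      unfold fn
      rw [b0, b1, b2]
      ring
    rw [e1]
    exact hN

variable {J : ℕ}

/-- The constant of the mass of a label. -/
noncomputable def mC (C : ℝ) : ℝ :=
  Real.exp (-(8 * (3 * Real.log 15 + 6 * Real.log (16 * C + 21)))) / 2

theorem mC_pos (C : ℝ) : 0 < mC C := by
  unfold mC
  positivity

/-- **The label from a visible frame and a conserved frame.** -/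
theorem lab_gen (F : Fam 3 J) {E : F.Ω → Prop} (hE : 0 < Pe F.p E) {i0 iu iN : Fin 3}
    (hi : ∀ j : Fin 3, j = i0 ∨ j = iu ∨ j = iN) {v V H k P2 : ℕ} {C : ℝ} (hC : 9 ≤ C)
    {e c s nuU nuN c' s' : F.Ω → ℝ}
    (hvis : ∀ ω ω', E ω → E ω' → ptq F J ω = ptq F J ω' →
      e ω = e ω' ∧ c ω = c ω' ∧ s ω = s ω' ∧ nuU ω = nuU ω' ∧ nuN ω = nuN ω')
    (hcon : ∀ ω ω', E ω → E ω' → slam F v ω = slam F v ω' →
      e ω = e ω' ∧ c' ω = c' ω' ∧ s' ω = s' ω')
    (he : ∀ ω, E ω → |e ω| ≤ 2) (hc : ∀ ω, E ω → |c ω| ≤ 4) (hs : ∀ ω, E ω → |s ω| ≤ 4)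
    (hJ : v + V + H + k ≤ J)
    (hu : ∀ ω, E ω → |F.d ω iu - e ω * F.d ω i0 - nuU ω| ≤ C / 2 ^ V)
    (hN : ∀ ω, E ω → |c ω * F.d ω i0 + s ω * F.d ω iu + F.d ω iN - nuN ω| ≤
      C / 2 ^ (V + H + k))
    (h1 : ∀ ω, E ω → |s ω - s' ω| ≤ 1 / 2 ^ (H + k))
    (h2 : ∀ ω, E ω → |(c ω - c' ω) + (s ω - s' ω) * e ω| ≤ 1 / 2 ^ (V + H + k))
    (hP2 : P2 ≤ v + V + H + k) :
    ∃ B : F.Ω → Prop, Sub B E ∧ mC C * Pe F.p E ≤ Pe F.p B ∧
      LABq F J i0 iu iN v 0 P2 2 B := by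
  obtain ⟨x0, hx0⟩ : ∃ x0 : F.Ω → Fin 3 → ℝ, x0 = fun ω j => (F.X J ω j : ℝ) / 2 ^ J := ⟨_, rfl⟩
  obtain ⟨y, hy⟩ : ∃ y : F.Ω → Pln, y = fun ω => ⟨e ω, c ω, s ω,
      fun j => x0 ω j - F.t ω * dbv i0 iu (s ω) (nuU ω) (nuN ω) j,
      dbv i0 iu (s ω) (nuU ω) (nuN ω)⟩ := ⟨_, rfl⟩
  obtain ⟨z, hz⟩ : ∃ z : F.Ω → Pln, z = fun ω => ⟨e ω, c' ω, s' ω, 0, 0⟩ := ⟨_, rfl⟩
  have hI : ∀ ω, E ω → Inc i0 iu iN v V (v + V + H + k) C (y ω) (F.t ω) (F.x ω) (F.d ω) := by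
    intro ω hω
    rw [hy]
    refine inc_of hi (J := J) (he ω hω) (hc ω hω) (hs ω hω) (fun j => ?_) (by omega) hJ hC
      (F.dir ω i0) (hu ω hω) ((hN ω hω).trans (le_of_eq ?_))
    · rw [hx0]
      exact floor_near J (F.x ω j)
    · have : (2 : ℝ) ^ (v + V + H + k) = 2 ^ v * 2 ^ (V + H + k) := by
        rw [← pow_add]
        congr 1
        omega
      rw [this]
      field_simp
  obtain ⟨φ, hφ⟩ := exists_fun E (ptq F J) y (by
    intro ω ω' hω hω' h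
    obtain ⟨k1, k2, k3, k4, k5⟩ := hvis ω ω' hω hω' h
    have k6 : F.X J ω = F.X J ω' := (Prod.ext_iff.mp h).1
    have k7 : F.W ω = F.W ω' := (Prod.ext_iff.mp h).2
    have k7' : F.T ω = F.T ω' := (Prod.ext_iff.mp k7).1
    have k8 : F.t ω = F.t ω' := by
      unfold Fam.t
      rw [k7']
    rw [hy, hx0]
    simp only [k1, k2, k3, k4, k5, k6, k8])
  obtain ⟨ζ, hζ⟩ := exists_fun E (slam F v) z (by
    intro ω ω' hω hω' h
    obtain ⟨k1, k2, k3⟩ := hcon ω ω' hω hω' h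
    rw [hz]
    simp only [k1, k2, k3])
  obtain ⟨B, b1, b2, b3⟩ := lab_prod F le_rfl hi (v := v) (W := v) (lam := V)
    (P := v + V + H + k) (l2 := V) (sg := H + k) (ag := V + H + k) (P2 := P2) (by linarith) hE hI
    hφ (ζ := ζ) (fun ω hω => by
      rw [← hζ ω hω, hy, hz]
      refine ⟨?_, h1 ω hω, ?_⟩
      · simp only [sub_self, abs_zero]
        positivity
      · exact h2 ω hω) le_rfl (by omega) (by omega) (by omega) (by omega) (by omega)
  refine ⟨B, b1, b2, ?_⟩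
  obtain ⟨y', q1, q2, q3⟩ := b3
  refine ⟨y', fun ω hω => ?_, q2, q3⟩
  have q := q1 ω hω
  refine ⟨q.e_le, q.c_le, q.s_le, q.pe, q.pu.trans ?_, q.pn, q.ve, q.vu.trans ?_, q.vn⟩
  · exact div_le_div_of_nonneg_left (by norm_num) (by positivity)
      (pow_le_pow_right₀ (by norm_num) (by omega))
  · exact div_le_div_of_nonneg_left (by norm_num) (by positivity)
      (pow_le_pow_right₀ (by norm_num) (by omega))

end Pool.COP
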