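import Pool.Agent.H1.DPL.CopL

/-!
# The own slope and two references on one line (COP): the two charts
-/

set_option autoImplicit false

namespace Pool.COP

/-- One chart. -/
theorem chart_core {α β γ α' β' γ' p0 p0' e₀ z eu eN T μ1 μ0 D dE dIu dIN cst err : ℝ}
    (hT : 0 < T) (hab : |α| ≤ |β|) (h1 : T ≤ |α| ∨ T ≤ |β|) (h2 : T ≤ |α'| ∨ T ≤ |β'|)
    (h3 : |α * β' - α' * β| ≤ μ1) (h4 : μ1 ≤ T ^ 2 / 2) (hv : γ + α * e₀ + β * z = p0)
    (hv' : γ' + α' * e₀ + β' * z = p0') (h0 : |p0 * β' - p0' * β| ≤ μ0) (hu : |eu| ≤ 2)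
    (hN : |eN| ≤ 2) (hz : β * eN + α * eu + γ = 0) (he : |e₀ - eu| ≤ D)
    (hd : |γ * dE + α * dIu + β * dIN - cst| ≤ err) :
    (|α / β| ≤ 4 ∧ |γ / β| ≤ 4) ∧ |α / β - α' / β'| ≤ 2 * μ1 / T ^ 2 ∧
      |(γ / β - γ' / β') + (α / β - α' / β') * clp e₀| ≤ 2 * μ0 / T ^ 2 + 2 * μ1 / T ^ 2 * D ∧
      |γ / β * dE + α / β * dIu + dIN - cst / β| ≤ err / T ∧ |clp e₀ - eu| ≤ D := by
  obtain ⟨b1, b2⟩ := big_hat hT hab h1 h2 h3 h4
  have hb : 0 < |β| := by linarith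
  have nb : β ≠ 0 := abs_pos.1 hb
  obtain ⟨f1, f2⟩ := frame_bound nb hab hu hN hz
  obtain ⟨g1, g2⟩ := frame_close (γ := γ) (γ' := γ') (z := z) (e₀ := e₀) (μ0 := μ0)
    (D := D) hT b1 b2 h3 (by rw [hv, hv']; exact h0) (clp_dist hu he)
  refine ⟨⟨f1.trans (by norm_num), f2⟩, g1, g2, ?_, clp_near hu he⟩
  have e1 : γ / β * dE + α / β * dIu + dIN - cst / β =
      (γ * dE + α * dIu + β * dIN - cst) / β := by
    field_simp
  rw [e1, abs_div]
  exact div_le_div₀ ((abs_nonneg _).trans hd) hd hT b1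

/-- The input of the two charts at one sample. -/
structure AIn (B θ ε₁ C : ℝ) (H V k R : ℕ) (a s t al kk nu bb dE dU dN n0 n1 g h0 h1 gh : ℝ) :
    Prop where
  hB : 1 ≤ B
  hθ : 0 < θ
  hε₁ : 0 ≤ ε₁
  s_le : |s| ≤ B
  al_le : |al| ≤ 2
  eN_le : |s * al + t + kk| ≤ 2
  near : |al - a| ≤ B / 2 ^ V
  near2 : |kk| ≤ B / 2 ^ (V + H)
  hg : g = -(n0 * (2 ^ V * (al - a)) + n1 * (2 ^ (V + H) * kk))
  n0_le : |n0| ≤ 1
  n1_le : |n1| ≤ 1
  big : 2 ^ H * θ ≤ |n0| ∨ θ ≤ |n1|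
  big' : 2 ^ H * θ ≤ |h0| ∨ θ ≤ |h1|
  m01 : |n0 * h1 - n1 * h0| ≤ ε₁
  mg0 : |g * h0 - gh * n0| ≤ ε₁
  mg1 : |g * h1 - gh * n1| ≤ ε₁
  siz : ε₁ ≤ θ ^ 2 / (2 * (1 + B) ^ 2)
  pre : 2 * (1 + B) ^ 4 * ε₁ / θ ^ 2 ≤ 1 / 2 ^ k
  dE_le : |dE| ≤ 1
  on1 : |dU - al * dE - nu| ≤ B / 2 ^ R
  on2 : |dN - s * dU - t * dE - bb - kk * dE| ≤ B / 2 ^ (R + H)
  fin : 2 * B * (1 + B) * 2 ^ (V + k) ≤ C * θ * 2 ^ R
  VR : V ≤ R
  hC : 4 * B ^ 2 ≤ C

section two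

variable {B θ ε₁ C : ℝ} {H V k R : ℕ} {a s t al kk nu bb dE dU dN n0 n1 g h0 h1 gh : ℝ}

/-- The coefficient of `x_u` of the form. -/
def cU (H : ℕ) (s n0 n1 : ℝ) : ℝ := n0 - s * (2 ^ H * n1)

/-- The coefficient of `x_N` of the form. -/
def cN (H : ℕ) (n1 : ℝ) : ℝ := 2 ^ H * n1

/-- The coefficient of `x_e` of the form. -/
noncomputable def cE (H V : ℕ) (a t n0 n1 g : ℝ) : ℝ := g / 2 ^ V - a * n0 - t * (2 ^ H * n1)

/-- The constant of the form. -/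
def cB (H : ℕ) (nu bb n0 n1 : ℝ) : ℝ := 2 ^ H * n1 * bb + n0 * nu

theorem tau_big {p1 p2 : ℝ} {T' : ℝ} (hB : 0 ≤ B) (hs : |s| ≤ B) (hT : 0 ≤ T')
    (h : T' ≤ |p1| ∨ T' ≤ |p2|) : T' / (1 + B) ≤ |p1 - s * p2| ∨ T' / (1 + B) ≤ |p2| := by
  by_contra hcon
  push Not at hcon
  obtain ⟨c1, c2⟩ := hcon
  have hB1 : 0 < 1 + B := by linarith
  have k1 : |p1| ≤ |p1 - s * p2| + |s| * |p2| := by
    have := abs_add_le (p1 - s * p2) (s * p2)
    rw [sub_add_cancel, abs_mul] at this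
    exact this
  have k2 : |s| * |p2| ≤ B * (T' / (1 + B)) := mul_le_mul hs c2.le (abs_nonneg _) hB
  have k3 : T' / (1 + B) + B * (T' / (1 + B)) = T' := by
    field_simp
  have k4 : T' / (1 + B) ≤ T' := by
    rw [div_le_iff₀ hB1]
    nlinarith
  rcases h with h | h <;> linarith

variable (h : AIn B θ ε₁ C H V k R a s t al kk nu bb dE dU dN n0 n1 g h0 h1 gh)

include h

/-- The size. -/
theorem AIn.T_pos : 0 < 2 ^ H * θ / (1 + B) := by
  have := h.hθ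
  have := h.hB
  positivity

theorem AIn.b1 : 2 ^ H * θ / (1 + B) ≤ |cU H s n0 n1| ∨ 2 ^ H * θ / (1 + B) ≤ |cN H n1| := by
  have hθ := h.hθ
  have hp : (0 : ℝ) < 2 ^ H := by positivity
  refine tau_big (by linarith [h.hB]) h.s_le (by positivity) ?_
  rcases h.big with h1 | h1
  · exact Or.inl h1
  · refine Or.inr ?_
    rw [abs_mul, abs_of_pos hp]
    exact mul_le_mul_of_nonneg_left h1 hp.le

theorem AIn.b2 : 2 ^ H * θ / (1 + B) ≤ |cU H s h0 h1| ∨ 2 ^ H * θ / (1 + B) ≤ |cN H h1| := by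
  have hθ := h.hθ
  have hp : (0 : ℝ) < 2 ^ H := by positivity
  refine tau_big (by linarith [h.hB]) h.s_le (by positivity) ?_
  rcases h.big' with h1 | h1
  · exact Or.inl h1
  · refine Or.inr ?_
    rw [abs_mul, abs_of_pos hp]
    exact mul_le_mul_of_nonneg_left h1 hp.le

theorem AIn.m1 : |cU H s n0 n1 * cN H h1 - cU H s h0 h1 * cN H n1| ≤ 2 ^ H * ε₁ := by
  have hp : (0 : ℝ) < 2 ^ H := by positivity
  have e : cU H s n0 n1 * cN H h1 - cU H s h0 h1 * cN H n1 = 2 ^ H * (n0 * h1 - n1 * h0) := by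
    unfold cU cN
    ring
  rw [e, abs_mul, abs_of_pos hp]
  exact mul_le_mul_of_nonneg_left h.m01 hp.le

theorem AIn.siz' : 2 ^ H * ε₁ ≤ (2 ^ H * θ / (1 + B)) ^ 2 / 2 := by
  have hB := h.hB
  have hθ := h.hθ
  have hp : (1 : ℝ) ≤ 2 ^ H := one_le_pow₀ (by norm_num)
  have k1 : 2 ^ H * ε₁ ≤ 2 ^ H * (θ ^ 2 / (2 * (1 + B) ^ 2)) :=
    mul_le_mul_of_nonneg_left h.siz (by positivity)
  refine k1.trans ?_
  have e : (2 ^ H * θ / (1 + B)) ^ 2 / 2 = 2 ^ H * (2 ^ H * (θ ^ 2 / (2 * (1 + B) ^ 2))) := by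
    field_simp
  rw [e]
  have : 0 ≤ θ ^ 2 / (2 * (1 + B) ^ 2) := by positivity
  nlinarith [mul_nonneg (by positivity : (0 : ℝ) ≤ 2 ^ H) this]

theorem AIn.r1 : 2 * (2 ^ H * ε₁) / (2 ^ H * θ / (1 + B)) ^ 2 ≤ 1 / 2 ^ (H + k) := by
  have hB := h.hB
  have hθ := h.hθ
  have hε := h.hε₁
  have e : 2 * (2 ^ H * ε₁) / (2 ^ H * θ / (1 + B)) ^ 2 =
      2 * (1 + B) ^ 4 * ε₁ / θ ^ 2 / (2 ^ H * (1 + B) ^ 2) := by
    field_simp
  rw [e, pow_add]
  have k1 : 2 * (1 + B) ^ 4 * ε₁ / θ ^ 2 / (2 ^ H * (1 + B) ^ 2) ≤ 1 / 2 ^ k / (2 ^ H * 1) := by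
    refine div_le_div₀ (by positivity) h.pre (by positivity) ?_
    exact mul_le_mul_of_nonneg_left (one_le_pow₀ (by linarith)) (by positivity)
  refine k1.trans (le_of_eq ?_)
  field_simp

theorem AIn.r2 : 2 * ((1 + B) * 2 ^ H / 2 ^ V * ε₁) / (2 ^ H * θ / (1 + B)) ^ 2 +
    2 * (2 ^ H * ε₁) / (2 ^ H * θ / (1 + B)) ^ 2 * ((B ^ 2 + B) / 2 ^ V) ≤
      1 / 2 ^ (V + H + k) := by
  have hB := h.hB
  have hθ := h.hθ
  have hε := h.hε₁
  have e : 2 * ((1 + B) * 2 ^ H / 2 ^ V * ε₁) / (2 ^ H * θ / (1 + B)) ^ 2 +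
      2 * (2 ^ H * ε₁) / (2 ^ H * θ / (1 + B)) ^ 2 * ((B ^ 2 + B) / 2 ^ V) =
      2 * (1 + B) ^ 4 * ε₁ / θ ^ 2 / (2 ^ V * 2 ^ H) := by
    field_simp
    ring
  rw [e]
  refine (div_le_div_of_nonneg_right h.pre (by positivity)).trans (le_of_eq ?_)
  rw [pow_add, pow_add]
  field_simp

theorem AIn.numer : |cE H V a t n0 n1 g * dE + cU H s n0 n1 * dU + cN H n1 * dN -
    cB H nu bb n0 n1| ≤ 2 * B / 2 ^ R := by
  have hB := h.hB
  have e : cE H V a t n0 n1 g * dE + cU H s n0 n1 * dU + cN H n1 * dN - cB H nu bb n0 n1 =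
      n0 * (dU - al * dE - nu) +
        2 ^ H * n1 * (dN - s * dU - t * dE - bb - kk * dE) := by
    have hg := h.hg
    unfold cE cU cN cB
    rw [hg, pow_add]
    field_simp
    ring
  rw [e]
  refine (abs_add_le _ _).trans ?_
  have hp : (0 : ℝ) < 2 ^ H := by positivity
  rw [abs_mul, abs_mul, abs_mul, abs_of_pos hp]
  have q1 : |n0| * |dU - al * dE - nu| ≤ 1 * (B / 2 ^ R) :=
    mul_le_mul h.n0_le h.on1 (abs_nonneg _) (by norm_num)
  have q2 : 2 ^ H * |n1| * |dN - s * dU - t * dE - bb - kk * dE| ≤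
      2 ^ H * 1 * (B / 2 ^ (R + H)) :=
    mul_le_mul (mul_le_mul_of_nonneg_left h.n1_le hp.le) h.on2 (abs_nonneg _) (by positivity)
  have q3 : 2 ^ H * 1 * (B / 2 ^ (R + H)) = B / 2 ^ R := by
    rw [pow_add]
    field_simp
  rw [q3] at q2
  have q4 : 2 * B / 2 ^ R = 1 * (B / 2 ^ R) + B / 2 ^ R := by ring
  rw [q4]
  exact add_le_add q1 q2

theorem AIn.zero : cN H n1 * (s * al + t + kk) + cU H s n0 n1 * al + cE H V a t n0 n1 g = 0 := by
  have hg := h.hg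
  unfold cE cU cN
  rw [hg, pow_add]
  field_simp
  ring

theorem AIn.r3 : 2 * B / 2 ^ R / (2 ^ H * θ / (1 + B)) ≤ C / 2 ^ (V + H + k) := by
  have hB := h.hB
  have hθ := h.hθ
  have hf := h.fin
  rw [div_div, div_le_div_iff₀ (by positivity) (by positivity)]
  have e1 : C * (2 ^ R * (2 ^ H * θ / (1 + B))) = 2 ^ H * (C * θ * 2 ^ R) / (1 + B) := by ring
  have e2 : 2 * B * 2 ^ (V + H + k) = 2 ^ H * (2 * B * (1 + B) * 2 ^ (V + k)) / (1 + B) := by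
    simp only [pow_add]
    field_simp
  rw [e1, e2]
  exact div_le_div_of_nonneg_right (mul_le_mul_of_nonneg_left hf (by positivity)) (by linarith)

theorem AIn.eu_near : |a - al| ≤ (B ^ 2 + B) / 2 ^ V := by
  have hB := h.hB
  rw [abs_sub_comm]
  refine h.near.trans (div_le_div_of_nonneg_right ?_ (by positivity))
  nlinarith

theorem AIn.eN_near : |s * a + t - (s * al + t + kk)| ≤ (B ^ 2 + B) / 2 ^ V := by
  have hB := h.hB
  have e : s * a + t - (s * al + t + kk) = -(s * (al - a) + kk) := by ring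
  rw [e, abs_neg]
  refine (abs_add_le _ _).trans ?_
  rw [abs_mul]
  have q1 : |s| * |al - a| ≤ B * (B / 2 ^ V) := mul_le_mul h.s_le h.near (abs_nonneg _)
    (by linarith)
  have q2 : B / 2 ^ (V + H) ≤ B / 2 ^ V := by
    refine div_le_div_of_nonneg_left (by linarith) (by positivity)
      (pow_le_pow_right₀ (by norm_num) (by omega))
  have q3 := h.near2
  have e2 : (B ^ 2 + B) / 2 ^ V = B * (B / 2 ^ V) + B / 2 ^ V := by ring
  rw [e2]
  linarith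

theorem AIn.C_big : (B ^ 2 + B) / 2 ^ V + (B ^ 2 + B) / 2 ^ R ≤ C / 2 ^ V := by
  have hB := h.hB
  have q1 : (B ^ 2 + B) / 2 ^ R ≤ (B ^ 2 + B) / 2 ^ V :=
    div_le_div_of_nonneg_left (by positivity) (by positivity)
      (pow_le_pow_right₀ (by norm_num) h.VR)
  have q2 : (B ^ 2 + B) / 2 ^ V + (B ^ 2 + B) / 2 ^ V = (2 * B ^ 2 + 2 * B) / 2 ^ V := by ring
  have q3 : (2 * B ^ 2 + 2 * B) / 2 ^ V ≤ C / 2 ^ V := by
    refine div_le_div_of_nonneg_right (le_trans ?_ h.hC) (by positivity)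
    nlinarith
  linarith

/-- **The first chart.** -/
theorem AIn.chart1 (hab : |cU H s n0 n1| ≤ |cN H n1|) :
    (|cU H s n0 n1 / cN H n1| ≤ 4 ∧ |cE H V a t n0 n1 g / cN H n1| ≤ 4) ∧
      |cU H s n0 n1 / cN H n1 - cU H s h0 h1 / cN H h1| ≤ 1 / 2 ^ (H + k) ∧
      |(cE H V a t n0 n1 g / cN H n1 - cE H V a t h0 h1 gh / cN H h1) +
        (cU H s n0 n1 / cN H n1 - cU H s h0 h1 / cN H h1) * clp a| ≤ 1 / 2 ^ (V + H + k) ∧
      |cE H V a t n0 n1 g / cN H n1 * dE + cU H s n0 n1 / cN H n1 * dU + dN -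
        cB H nu bb n0 n1 / cN H n1| ≤ C / 2 ^ (V + H + k) ∧
      |dU - clp a * dE - nu| ≤ C / 2 ^ V := by
  have hB := h.hB
  have hε := h.hε₁
  have hpV : (0 : ℝ) < 2 ^ V := by positivity
  have hpH : (0 : ℝ) < 2 ^ H := by positivity
  obtain ⟨c1, c2, c3, c4, c5⟩ := chart_core (p0 := g / 2 ^ V) (p0' := gh / 2 ^ V) (e₀ := a)
    (z := s * a + t) (eu := al) (eN := s * al + t + kk) (μ1 := 2 ^ H * ε₁)
    (μ0 := (1 + B) * 2 ^ H / 2 ^ V * ε₁) (D := (B ^ 2 + B) / 2 ^ V) (dE := dE) (dIu := dU)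
    (dIN := dN) (cst := cB H nu bb n0 n1) (err := 2 * B / 2 ^ R)
    (γ := cE H V a t n0 n1 g) (γ' := cE H V a t h0 h1 gh) (α' := cU H s h0 h1) (β' := cN H h1)
    h.T_pos hab h.b1 h.b2 h.m1 h.siz'
    (by unfold cE cU cN; ring) (by unfold cE cU cN; ring) (by
      have e : g / 2 ^ V * cN H h1 - gh / 2 ^ V * cN H n1 =
          2 ^ H / 2 ^ V * (g * h1 - gh * n1) := by
        unfold cN
        ring
      rw [e, abs_mul, abs_of_pos (by positivity : (0 : ℝ) < 2 ^ H / 2 ^ V)]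
      have q1 : 2 ^ H / 2 ^ V * |g * h1 - gh * n1| ≤ 2 ^ H / 2 ^ V * ε₁ :=
        mul_le_mul_of_nonneg_left h.mg1 (by positivity)
      have q2 : 2 ^ H / 2 ^ V * ε₁ ≤ (1 + B) * 2 ^ H / 2 ^ V * ε₁ := by
        refine mul_le_mul_of_nonneg_right ?_ hε
        refine div_le_div_of_nonneg_right ?_ hpV.le
        nlinarith
      exact q1.trans q2)
    h.al_le h.eN_le h.zero h.eu_near h.numer
  refine ⟨c1, c2.trans h.r1, c3.trans h.r2, c4.trans h.r3, ?_⟩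
  have e : dU - clp a * dE - nu = (dU - al * dE - nu) + -((clp a - al) * dE) := by ring
  rw [e]
  refine (abs_add_le _ _).trans (le_trans ?_ h.C_big)
  rw [abs_neg, abs_mul]
  have q1 : |clp a - al| * |dE| ≤ (B ^ 2 + B) / 2 ^ V * 1 :=
    mul_le_mul c5 h.dE_le (abs_nonneg _) (by positivity)
  have q2 : B / 2 ^ R ≤ (B ^ 2 + B) / 2 ^ R := by
    refine div_le_div_of_nonneg_right ?_ (by positivity)
    nlinarith
  have q3 := h.on1
  linarith

/-- **The second chart.** -/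
theorem AIn.chart2 (hab : |cN H n1| ≤ |cU H s n0 n1|) :
    (|cN H n1 / cU H s n0 n1| ≤ 4 ∧ |cE H V a t n0 n1 g / cU H s n0 n1| ≤ 4) ∧
      |cN H n1 / cU H s n0 n1 - cN H h1 / cU H s h0 h1| ≤ 1 / 2 ^ (H + k) ∧
      |(cE H V a t n0 n1 g / cU H s n0 n1 - cE H V a t h0 h1 gh / cU H s h0 h1) +
        (cN H n1 / cU H s n0 n1 - cN H h1 / cU H s h0 h1) * clp (s * a + t)| ≤
          1 / 2 ^ (V + H + k) ∧
      |cE H V a t n0 n1 g / cU H s n0 n1 * dE + cN H n1 / cU H s n0 n1 * dN + dU -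
        cB H nu bb n0 n1 / cU H s n0 n1| ≤ C / 2 ^ (V + H + k) ∧
      |dN - clp (s * a + t) * dE - (s * nu + bb)| ≤ C / 2 ^ V := by
  have hB := h.hB
  have hε := h.hε₁
  have hpV : (0 : ℝ) < 2 ^ V := by positivity
  have hpH : (1 : ℝ) ≤ 2 ^ H := one_le_pow₀ (by norm_num)
  obtain ⟨c1, c2, c3, c4, c5⟩ := chart_core (p0 := g / 2 ^ V) (p0' := gh / 2 ^ V)
    (e₀ := s * a + t) (z := a) (eu := s * al + t + kk) (eN := al) (μ1 := 2 ^ H * ε₁)
    (μ0 := (1 + B) * 2 ^ H / 2 ^ V * ε₁) (D := (B ^ 2 + B) / 2 ^ V) (dE := dE) (dIu := dN)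
    (dIN := dU) (cst := cB H nu bb n0 n1) (err := 2 * B / 2 ^ R)
    (γ := cE H V a t n0 n1 g) (γ' := cE H V a t h0 h1 gh) (α' := cN H h1) (β' := cU H s h0 h1)
    h.T_pos hab h.b1.symm h.b2.symm (by
      have := h.m1
      rw [abs_sub_comm] at this
      have e : cN H n1 * cU H s h0 h1 - cN H h1 * cU H s n0 n1 =
        cU H s h0 h1 * cN H n1 - cU H s n0 n1 * cN H h1 := by ring
      rw [e]
      exact this) h.siz'
    (by unfold cE cU cN; ring) (by unfold cE cU cN; ring) (by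
      have e : g / 2 ^ V * cU H s h0 h1 - gh / 2 ^ V * cU H s n0 n1 =
          ((g * h0 - gh * n0) - s * (2 ^ H * (g * h1 - gh * n1))) / 2 ^ V := by
        unfold cU
        ring
      rw [e, abs_div, abs_of_pos hpV]
      have q0 : |(g * h0 - gh * n0) - s * (2 ^ H * (g * h1 - gh * n1))| ≤
          ε₁ + B * (2 ^ H * ε₁) := by
        refine (abs_sub _ _).trans (add_le_add h.mg0 ?_)
        rw [abs_mul, abs_mul, abs_of_pos (by positivity : (0 : ℝ) < 2 ^ H)]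
        exact mul_le_mul h.s_le (mul_le_mul_of_nonneg_left h.mg1 (by positivity))
          (by positivity) (by linarith)
      have q1 : ε₁ + B * (2 ^ H * ε₁) ≤ (1 + B) * 2 ^ H * ε₁ := by nlinarith
      refine (div_le_div_of_nonneg_right (q0.trans q1) hpV.le).trans (le_of_eq ?_)
      ring)
    h.eN_le h.al_le (by
      have := h.zero
      linarith) h.eN_near (by
      have := h.numer
      have e : cE H V a t n0 n1 g * dE + cN H n1 * dN + cU H s n0 n1 * dU -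
          cB H nu bb n0 n1 = cE H V a t n0 n1 g * dE + cU H s n0 n1 * dU + cN H n1 * dN -
          cB H nu bb n0 n1 := by ring
      rw [e]
      exact this)
  refine ⟨c1, c2.trans h.r1, c3.trans h.r2, c4.trans h.r3, ?_⟩
  have e : dN - clp (s * a + t) * dE - (s * nu + bb) =
      (s * (dU - al * dE - nu) + (dN - s * dU - t * dE - bb - kk * dE)) +
        -((clp (s * a + t) - (s * al + t + kk)) * dE) := by ring
  rw [e]
  refine (abs_add_le _ _).trans (le_trans ?_ h.C_big)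
  rw [abs_neg, abs_mul]
  have q1 : |clp (s * a + t) - (s * al + t + kk)| * |dE| ≤ (B ^ 2 + B) / 2 ^ V * 1 :=
    mul_le_mul c5 h.dE_le (abs_nonneg _) (by positivity)
  have q2 : |s * (dU - al * dE - nu) + (dN - s * dU - t * dE - bb - kk * dE)| ≤
      (B ^ 2 + B) / 2 ^ R := by
    refine (abs_add_le _ _).trans ?_
    rw [abs_mul]
    have w1 : |s| * |dU - al * dE - nu| ≤ B * (B / 2 ^ R) := mul_le_mul h.s_le h.on1
      (abs_nonneg _) (by linarith)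
    have w2 : B / 2 ^ (R + H) ≤ B / 2 ^ R := by
      refine div_le_div_of_nonneg_left (by linarith) (by positivity)
        (pow_le_pow_right₀ (by norm_num) (by omega))
    have w3 := h.on2
    have w4 : (B ^ 2 + B) / 2 ^ R = B * (B / 2 ^ R) + B / 2 ^ R := by ring
    rw [w4]
    linarith
  linarith

end two

end Pool.COP
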