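import Pool.Agent.H49.Ent
import Pool.Agent.H32.Dense.EntX
import Pool.Agent.H90.STK.Defs

/-!
# Indicator functions, averages, and two kernels on a finite probability space
-/

set_option autoImplicit false

namespace Pool.PLN

open Finset Real
open Pool.Agent.H49.Ent Pool.Agent.H32.Dense Pool.STK

open Classical in
/-- The indicator function. -/
noncomputable def ind (E : Prop) : ℝ := if E then 1 else 0

theorem ind_of {E : Prop} (h : E) : ind E = 1 := by
  unfold ind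
  rw [if_pos h]

theorem ind_not {E : Prop} (h : ¬ E) : ind E = 0 := by
  unfold ind
  rw [if_neg h]

theorem ind_nonneg (E : Prop) : 0 ≤ ind E := by
  unfold ind
  split_ifs <;> norm_num

theorem ind_le_one (E : Prop) : ind E ≤ 1 := by
  unfold ind
  split_ifs <;> norm_num

theorem ind_mono {E E' : Prop} (h : E → E') : ind E ≤ ind E' := by
  by_cases h1 : E
  · rw [ind_of h1, ind_of (h h1)]
  · rw [ind_not h1]
    exact ind_nonneg _

theorem ind_or (E E' : Prop) : ind (E ∨ E') ≤ ind E + ind E' := by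
  by_cases h1 : E
  · rw [ind_of h1, ind_of (Or.inl h1)]
    linarith [ind_nonneg E']
  · by_cases h2 : E'
    · rw [ind_of h2, ind_of (Or.inr h2)]
      linarith [ind_nonneg E]
    · rw [ind_not (fun h => h.elim h1 h2)]
      linarith [ind_nonneg E, ind_nonneg E']

theorem lt_one_ind {E : Prop} (h : ind E < 1) : ¬ E := by
  intro hE
  rw [ind_of hE] at h
  exact lt_irrefl _ h

variable {Ω : Type} [Fintype Ω]

/-- The probability of an event. -/
theorem law_ind (p : Ω → ℝ) (E : Ω → Prop) : law p E True = ∑ ω, p ω * ind (E ω) := by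
  classical
  unfold law
  refine Finset.sum_congr rfl fun ω _ => ?_
  by_cases h : E ω
  · rw [ind_of h, if_pos (by simp [h]), mul_one]
  · rw [ind_not h, if_neg (by simp [h]), mul_zero]

/-- **Averages.** -/
theorem avg {ι : Type} [Fintype ι] {g : ι → ℝ} (hg : ∀ i, 0 ≤ g i) (A : ι → Prop) {F : ι → ℝ}
    (hF : ∀ i, 0 ≤ F i) {α M : ℝ} (hα : 0 < α) (hA : α ≤ ∑ i, g i * ind (A i))
    (hM : ∑ i, g i * F i ≤ M) : ∃ i, 0 < g i ∧ A i ∧ F i ≤ M / α := by
  by_contra hcon
  push Not at hcon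
  have hM0 : 0 ≤ M := le_trans (Finset.sum_nonneg fun i _ => mul_nonneg (hg i) (hF i)) hM
  have h1 : ∀ i, g i * ind (A i) * (M / α) ≤ g i * F i := by
    intro i
    rcases (hg i).eq_or_lt with h0 | h0
    · rw [← h0]; simp
    · by_cases hi : A i
      · rw [ind_of hi, mul_one]
        exact mul_le_mul_of_nonneg_left (hcon i h0 hi).le h0.le
      · rw [ind_not hi, mul_zero, zero_mul]
        exact mul_nonneg h0.le (hF i)
  obtain ⟨i, _, hi⟩ : ∃ i ∈ Finset.univ, 0 < g i * ind (A i) := by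
    by_contra hc
    push Not at hc
    have := Finset.sum_nonpos hc
    linarith
  have hgi : 0 < g i := by
    rcases (hg i).eq_or_lt with h0 | h0
    · rw [← h0, zero_mul] at hi
      exact absurd hi (lt_irrefl _)
    · exact h0
  have hAi : A i := by
    by_contra hc
    rw [ind_not hc, mul_zero] at hi
    exact lt_irrefl _ hi
  have h2 : ∑ i, g i * ind (A i) * (M / α) < ∑ i, g i * F i := by
    refine Finset.sum_lt_sum (fun i _ => h1 i) ⟨i, Finset.mem_univ _, ?_⟩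
    rw [ind_of hAi, mul_one]
    exact mul_lt_mul_of_pos_left (hcon i hgi hAi) hgi
  rw [← Finset.sum_mul] at h2
  have h3 : α * (M / α) ≤ (∑ i, g i * ind (A i)) * (M / α) :=
    mul_le_mul_of_nonneg_right hA (by positivity)
  have h4 : α * (M / α) = M := by field_simp
  linarith

/-- Averages over pairs. -/
theorem avg2 {c : Ω → ℝ} (hc : ∀ ω, 0 ≤ c ω) (A : Ω → Ω → Prop) {F : Ω → Ω → ℝ}
    (hF : ∀ x y, 0 ≤ F x y) {α M : ℝ} (hα : 0 < α)
    (hA : α ≤ ∑ x, c x * ∑ y, c y * ind (A x y)) (hM : ∑ x, c x * ∑ y, c y * F x y ≤ M) :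
    ∃ x y, 0 < c x ∧ 0 < c y ∧ A x y ∧ F x y ≤ M / α := by
  have e : ∀ f : Ω → Ω → ℝ, ∑ x, c x * ∑ y, c y * f x y = ∑ z : Ω × Ω, c z.1 * c z.2 * f z.1 z.2 := by
    intro f
    rw [Fintype.sum_prod_type]
    refine Finset.sum_congr rfl fun x _ => ?_
    rw [Finset.mul_sum]
    exact Finset.sum_congr rfl fun y _ => by ring
  rw [e] at hA hM
  obtain ⟨z, h1, h2, h3⟩ := avg (fun z : Ω × Ω => mul_nonneg (hc z.1) (hc z.2))
    (fun z => A z.1 z.2) (fun z => hF z.1 z.2) hα hA hM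
  refine ⟨z.1, z.2, ?_, ?_, h2, h3⟩
  · exact pos_of_mul_pos_left h1 (hc z.2)
  · exact pos_of_mul_pos_right h1 (hc z.1)

/-- Averages over one sample. -/
theorem avg1 {c : Ω → ℝ} (hc : IsLaw c) {F : Ω → ℝ} {M : ℝ} (hM : ∑ x, c x * F x ≤ M) :
    ∃ x, 0 < c x ∧ F x ≤ M := by
  by_contra hcon
  push Not at hcon
  have h1 : ∀ x, c x * M ≤ c x * F x := by
    intro x
    rcases (hc.nonneg x).eq_or_lt with h0 | h0
    · rw [← h0]; simp
    · exact mul_le_mul_of_nonneg_left (hcon x h0).le h0.le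
  obtain ⟨x, hx⟩ : ∃ x, 0 < c x := by
    by_contra hc'
    push Not at hc'
    have := Finset.sum_nonpos (s := Finset.univ) fun x _ => hc' x
    rw [hc.sum_one] at this
    linarith
  have h2 : ∑ x, c x * M < ∑ x, c x * F x :=
    Finset.sum_lt_sum (fun x _ => h1 x) ⟨x, Finset.mem_univ _,
      mul_lt_mul_of_pos_left (hcon x hx) hx⟩
  rw [← Finset.sum_mul, hc.sum_one, one_mul] at h2
  linarith

/-- **One line.** -/
theorem line_step {c : Ω → ℝ} (hc : IsLaw c) (B Ap : Ω → Ω → Prop) {α b : ℝ} (hα : 0 < α)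
    (hb : ∑ w, c w * ∑ ρ, c ρ * ind (B w ρ) ≤ b)
    (hA : α ≤ ∑ ρ, c ρ * ∑ ρ', c ρ' * ind (Ap ρ ρ')) (hlt : 5 * b < α) :
    ∃ w' ρ ρ', 0 < c w' ∧ 0 < c ρ ∧ 0 < c ρ' ∧ Ap ρ ρ' ∧ ¬ B w' ρ ∧ ¬ B w' ρ' ∧
      ∑ w, c w * ind (B w' w ∨ B w ρ ∨ B w ρ') ≤ 5 * b / α := by
  have h0 := hc.nonneg
  have h1 := hc.sum_one
  obtain ⟨β, hβ⟩ : ∃ β : Ω → ℝ, β = fun ρ => ∑ w, c w * ind (B w ρ) := ⟨_, rfl⟩
  obtain ⟨b', hb'⟩ : ∃ b' : ℝ, b' = ∑ w, c w * ∑ ρ, c ρ * ind (B w ρ) := ⟨_, rfl⟩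
  have hb'0 : 0 ≤ b' := by
    rw [hb']
    exact Finset.sum_nonneg fun w _ => mul_nonneg (h0 w)
      (Finset.sum_nonneg fun ρ _ => mul_nonneg (h0 ρ) (ind_nonneg _))
  have hβ0 : ∀ ρ, 0 ≤ β ρ := fun ρ => by
    rw [hβ]
    exact Finset.sum_nonneg fun w _ => mul_nonneg (h0 w) (ind_nonneg _)
  have hβs : ∑ ρ, c ρ * β ρ = b' := by
    rw [hβ, hb']
    simp only [Finset.mul_sum]
    rw [Finset.sum_comm]
    exact Finset.sum_congr rfl fun w _ => Finset.sum_congr rfl fun ρ _ => by ring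
  obtain ⟨ρ, ρ', hρ, hρ', hAp, hF⟩ := avg2 h0 Ap (F := fun x y => 2 * β x + 2 * β y + b')
    (fun x y => by
      have := hβ0 x
      have := hβ0 y
      linarith) (M := 5 * b) hα hA (by
      have e1 : ∀ x, ∑ y, c y * (2 * β x + 2 * β y + b') = 2 * β x + 3 * b' := by
        intro x
        have e2 : ∀ y, c y * (2 * β x + 2 * β y + b') =
            c y * (2 * β x + b') + 2 * (c y * β y) := fun y => by ring
        simp only [e2]
        rw [Finset.sum_add_distrib, ← Finset.sum_mul, h1, ← Finset.mul_sum, hβs]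
        ring
      have e3 : ∀ x, c x * (2 * β x + 3 * b') = 2 * (c x * β x) + c x * (3 * b') :=
        fun x => by ring
      simp only [e1, e3]
      rw [Finset.sum_add_distrib, ← Finset.mul_sum, hβs, ← Finset.sum_mul, h1]
      rw [← hb'] at hb
      linarith)
  obtain ⟨w', hw', hF'⟩ := avg1 hc (F := fun w' => ind (B w' ρ) + ind (B w' ρ') +
      ∑ w, c w * (ind (B w' w) + ind (B w ρ) + ind (B w ρ'))) (M := 5 * b / α) (by
    refine le_trans (le_of_eq ?_) hF
    have e1 : ∀ w', ∑ w, c w * (ind (B w' w) + ind (B w ρ) + ind (B w ρ')) =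
        ∑ w, c w * ind (B w' w) + (β ρ + β ρ') := by
      intro w'
      rw [hβ]
      simp only [mul_add]
      rw [Finset.sum_add_distrib, Finset.sum_add_distrib]
      ring
    have e2 : ∀ w', c w' * (ind (B w' ρ) + ind (B w' ρ') +
        ∑ w, c w * (ind (B w' w) + ind (B w ρ) + ind (B w ρ'))) =
        c w' * ind (B w' ρ) + c w' * ind (B w' ρ') + c w' * (∑ w, c w * ind (B w' w)) +
          c w' * (β ρ + β ρ') := by
      intro w'
      rw [e1]
      ring
    simp only [e2]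
    rw [Finset.sum_add_distrib, Finset.sum_add_distrib, Finset.sum_add_distrib,
      ← Finset.sum_mul, h1, ← hb']
    have e3 : ∑ w', c w' * ind (B w' ρ) = β ρ := by rw [hβ]
    have e4 : ∑ w', c w' * ind (B w' ρ') = β ρ' := by rw [hβ]
    rw [e3, e4]
    ring)
  have hs0 : 0 ≤ ∑ w, c w * (ind (B w' w) + ind (B w ρ) + ind (B w ρ')) :=
    Finset.sum_nonneg fun w _ => mul_nonneg (h0 w) (by
      have := ind_nonneg (B w' w)
      have := ind_nonneg (B w ρ)
      have := ind_nonneg (B w ρ')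
      linarith)
  have hlt1 : 5 * b / α < 1 := by rwa [div_lt_one hα]
  have i1 := ind_nonneg (B w' ρ)
  have i2 := ind_nonneg (B w' ρ')
  refine ⟨w', ρ, ρ', hw', hρ, hρ', hAp, lt_one_ind (by linarith), lt_one_ind (by linarith), ?_⟩
  refine le_trans (Finset.sum_le_sum fun w _ => mul_le_mul_of_nonneg_left ?_ (h0 w))
    (show ∑ w, c w * (ind (B w' w) + ind (B w ρ) + ind (B w ρ')) ≤ 5 * b / α by linarith)
  have k1 := ind_or (B w' w) (B w ρ ∨ B w ρ')
  have k2 := ind_or (B w ρ) (B w ρ')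
  linarith

/-! ### Conditional laws -/

section cnd

variable {S : Type} {p : Ω → ℝ} {Z : Ω → S}

theorem cond_law (hp : IsLaw p) {ω : Ω} (h : 0 < p ω) :
    IsLaw (Pool.Agent.H49.Ent.cond p Z (Z ω)) :=
  ⟨cond_nonneg hp.nonneg Z (Z ω), sum_cond p Z (law_pos hp.nonneg Z h).ne'⟩

/-- The tower property. -/
theorem sum_cc (hp : IsLaw p) (g : Ω → ℝ) :
    ∑ ω, p ω * ∑ w, Pool.Agent.H49.Ent.cond p Z (Z ω) w * g w = ∑ w, p w * g w := by
  classical
  simp only [Finset.mul_sum]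
  rw [Finset.sum_comm]
  refine Finset.sum_congr rfl fun w _ => ?_
  have e : ∀ ω, p ω * (Pool.Agent.H49.Ent.cond p Z (Z ω) w * g w) =
      (if Z ω = Z w then p ω else 0) * (p w * g w / law p Z (Z w)) := by
    intro ω
    unfold Pool.Agent.H49.Ent.cond
    by_cases h : Z w = Z ω
    · rw [if_pos h, if_pos h.symm, h]
      ring
    · rw [if_neg h, if_neg (fun e => h e.symm)]
      ring
  simp only [e]
  rw [← Finset.sum_mul]
  have e2 : ∑ ω, (if Z ω = Z w then p ω else 0) = law p Z (Z w) := by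
    unfold law
    exact Finset.sum_congr rfl fun ω _ => by congr
  rw [e2]
  rcases (hp.nonneg w).eq_or_lt with h0 | h0
  · rw [← h0]
    ring
  · have := (law_pos hp.nonneg Z h0).ne'
    field_simp

/-- The tower property, with a function of the label. -/
theorem sum_cc' (hp : IsLaw p) (g : S → Ω → ℝ) :
    ∑ ω, p ω * ∑ w, Pool.Agent.H49.Ent.cond p Z (Z ω) w * g (Z ω) w =
      ∑ w, p w * g (Z w) w := by
  rw [← sum_cc (Z := Z) hp fun w => g (Z w) w]
  refine Finset.sum_congr rfl fun ω _ => ?_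
  congr 1
  refine Finset.sum_congr rfl fun w _ => ?_
  rcases (cond_nonneg hp.nonneg Z (Z ω) w).eq_or_lt with h0 | h0
  · rw [← h0, zero_mul, zero_mul]
  · rw [((cond_pos_iff hp.nonneg Z (Z ω) w).1 h0).2]

end cnd

end Pool.PLN
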