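import Pool.Agent.H1.DPL.Ind
import Pool.Agent.H45.OCV.Real

/-!
# Planes of the references (PLN)

The slopes are points `S ω` of the plane. `kz` is the law of the slope of a reference through a
point: a sample through the point, and then another sample of its line. If the slopes of three
references through one point are almost always collinear, then the lines which they span are the
same for most samples of a line, and they contain the own slope.
-/

set_option autoImplicit false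

namespace Pool.PLN

open Finset Real
open Pool.Agent.H49.Ent Pool.Agent.H32.Dense Pool.STK

/-! ### Plane geometry -/

/-- Twice the oriented area of a triangle. -/
def D2 (a b c : Fin 2 → ℝ) : ℝ := (b 0 - a 0) * (c 1 - a 1) - (b 1 - a 1) * (c 0 - a 0)

/-- The points `a`, `b` are at distance at least `δ`. -/
def Apt (δ : ℝ) (a b : Fin 2 → ℝ) : Prop := ∃ i, δ ≤ |a i - b i|

theorem Apt.symm {δ : ℝ} {a b : Fin 2 → ℝ} (h : Apt δ a b) : Apt δ b a := by
  obtain ⟨i, hi⟩ := h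
  exact ⟨i, by rwa [abs_sub_comm]⟩

theorem sub_le_two {K : ℝ} {a b : Fin 2 → ℝ} (ha : ∀ i, |a i| ≤ K) (hb : ∀ i, |b i| ≤ K)
    (i : Fin 2) : |a i - b i| ≤ 2 * K := by
  have := abs_sub (a i) (b i)
  linarith [ha i, hb i]

/-- The product of two vectors which are almost parallel to a third one. -/
theorem cross_le {u p q : Fin 2 → ℝ} {δ e1 e2 M N : ℝ} (hδ : 0 < δ) (hu : ∃ i, δ ≤ |u i|)
    (h1 : |u 0 * p 1 - u 1 * p 0| ≤ e1) (h2 : |u 0 * q 1 - u 1 * q 0| ≤ e2)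
    (hp : ∀ i, |p i| ≤ M) (hq : ∀ i, |q i| ≤ N) (hM : 0 ≤ M) (hN : 0 ≤ N) :
    |p 0 * q 1 - p 1 * q 0| ≤ (M * e2 + N * e1) / δ := by
  obtain ⟨i, hi⟩ := hu
  have he1 : 0 ≤ e1 := (abs_nonneg _).trans h1
  have he2 : 0 ≤ e2 := (abs_nonneg _).trans h2
  have key : |u i| * |p 0 * q 1 - p 1 * q 0| ≤ M * e2 + N * e1 := by
    rw [← abs_mul]
    have e : u i * (p 0 * q 1 - p 1 * q 0) = p i * (u 0 * q 1 - u 1 * q 0) -
        q i * (u 0 * p 1 - u 1 * p 0) := by
      fin_cases i <;> simp <;> ring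
    rw [e]
    refine (abs_sub _ _).trans ?_
    rw [abs_mul, abs_mul]
    exact add_le_add (mul_le_mul (hp i) h2 (abs_nonneg _) hM)
      (mul_le_mul (hq i) h1 (abs_nonneg _) hN)
  rw [le_div_iff₀ hδ]
  refine le_trans ?_ key
  rw [mul_comm]
  exact mul_le_mul_of_nonneg_right hi (abs_nonneg _)

/-- Three points near one line are almost collinear. -/
theorem col_of_line {K δ e : ℝ} (hK : 0 ≤ K) (hδ : 0 < δ) {a b c d s : Fin 2 → ℝ}
    (hab : Apt δ a b) (hc : |D2 a b c| ≤ e) (hd : |D2 a b d| ≤ e) (hs : |D2 a b s| ≤ e)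
    (kc : ∀ i, |c i| ≤ K) (kd : ∀ i, |d i| ≤ K) (ks : ∀ i, |s i| ≤ K) :
    |D2 c d s| ≤ 8 * K * e / δ := by
  obtain ⟨i, hi⟩ := hab.symm
  have h := cross_le (u := fun i => b i - a i) (p := fun i => d i - c i)
    (q := fun i => s i - c i) (e1 := 2 * e) (e2 := 2 * e) (M := 2 * K) (N := 2 * K) hδ ⟨i, hi⟩ ?_ ?_
    (sub_le_two kd kc) (sub_le_two ks kc) (by linarith) (by linarith)
  · unfold D2
    refine h.trans (le_of_eq ?_)
    ring
  · have e1 : (b 0 - a 0) * (d 1 - c 1) - (b 1 - a 1) * (d 0 - c 0) = D2 a b d - D2 a b c := by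
      unfold D2
      ring
    rw [e1]
    exact (abs_sub _ _).trans (by linarith)
  · have e1 : (b 0 - a 0) * (s 1 - c 1) - (b 1 - a 1) * (s 0 - c 0) = D2 a b s - D2 a b c := by
      unfold D2
      ring
    rw [e1]
    exact (abs_sub _ _).trans (by linarith)

/-- A point which is almost collinear with two points near a line is near the line. -/
theorem line_of_col {K δ e e' : ℝ} (hK : 0 ≤ K) (hδ : 0 < δ) {a b c d s : Fin 2 → ℝ}
    (hcd : Apt δ c d) (hc : |D2 a b c| ≤ e) (hd : |D2 a b d| ≤ e) (hs : |D2 c d s| ≤ e')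
    (ka : ∀ i, |a i| ≤ K) (kb : ∀ i, |b i| ≤ K) (kc : ∀ i, |c i| ≤ K) (ks : ∀ i, |s i| ≤ K) :
    |D2 a b s| ≤ (2 * K * e' + 4 * K * e) / δ + e := by
  obtain ⟨i, hi⟩ := hcd.symm
  have h := cross_le (u := fun i => d i - c i) (p := fun i => b i - a i)
    (q := fun i => s i - c i) (e1 := 2 * e) (e2 := e') (M := 2 * K) (N := 2 * K) hδ ⟨i, hi⟩ ?_ ?_
    (sub_le_two kb ka) (sub_le_two ks kc) (by linarith) (by linarith)
  · have e1 : D2 a b s = ((b 0 - a 0) * (s 1 - c 1) - (b 1 - a 1) * (s 0 - c 0)) + D2 a b c := by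
      unfold D2
      ring
    rw [e1]
    refine (abs_add_le _ _).trans (add_le_add (h.trans (le_of_eq ?_)) hc)
    ring
  · have e1 : (d 0 - c 0) * (b 1 - a 1) - (d 1 - c 1) * (b 0 - a 0) = D2 a b c - D2 a b d := by
      unfold D2
      ring
    rw [e1]
    exact (abs_sub _ _).trans (by linarith)
  · have e1 : (d 0 - c 0) * (s 1 - c 1) - (d 1 - c 1) * (s 0 - c 0) = D2 c d s := rfl
    rw [e1]
    exact hs

/-- The covector of a line. -/
theorem covector {δ e e' : ℝ} (hδ : 0 < δ) {a b : Fin 2 → ℝ} (hab : Apt δ a b) :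
    ∃ n : Fin 2 → ℝ, (∀ i, |n i| ≤ 1) ∧ (∃ i, |n i| = 1) ∧ ∀ s r : Fin 2 → ℝ, |D2 a b s| ≤ e →
      |D2 a b r| ≤ e' → |∑ i, n i * (r i - s i)| ≤ (e + e') / δ := by
  obtain ⟨i, hi⟩ := hab.symm
  have hu : ∃ i : Fin 2, δ ≤ |b i - a i| ∧ ∀ j, |b j - a j| ≤ |b i - a i| := by
    obtain ⟨k, _, hk⟩ := Finset.exists_max_image (Finset.univ : Finset (Fin 2))
      (fun i => |b i - a i|) ⟨i, Finset.mem_univ _⟩
    exact ⟨k, hi.trans (hk i (Finset.mem_univ _)), fun j => hk j (Finset.mem_univ _)⟩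
  obtain ⟨k, hk, hmax⟩ := hu
  have hkp : 0 < |b k - a k| := lt_of_lt_of_le hδ hk
  obtain ⟨M, hM⟩ : ∃ M, M = |b k - a k| := ⟨_, rfl⟩
  rw [← hM] at hk hmax hkp
  refine ⟨![-(b 1 - a 1) / M, (b 0 - a 0) / M], ?_, ?_, ?_⟩
  · intro j
    fin_cases j
    · show |-(b 1 - a 1) / M| ≤ 1
      rw [abs_div, abs_neg, abs_of_pos hkp, div_le_one hkp]
      exact hmax 1
    · show |(b 0 - a 0) / M| ≤ 1
      rw [abs_div, abs_of_pos hkp, div_le_one hkp]
      exact hmax 0
  · rcases Fin.exists_fin_two.1 (⟨k, hM.symm⟩ : ∃ k, |b k - a k| = M) with h | h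
    · refine ⟨1, ?_⟩
      show |(b 0 - a 0) / M| = 1
      rw [abs_div, abs_of_pos hkp, h, div_self hkp.ne']
    · refine ⟨0, ?_⟩
      show |-(b 1 - a 1) / M| = 1
      rw [abs_div, abs_neg, abs_of_pos hkp, h, div_self hkp.ne']
  · intro s r hs hr
    rw [Fin.sum_univ_two]
    have e1 : (![-(b 1 - a 1) / M, (b 0 - a 0) / M] : Fin 2 → ℝ) 0 * (r 0 - s 0) +
        (![-(b 1 - a 1) / M, (b 0 - a 0) / M] : Fin 2 → ℝ) 1 * (r 1 - s 1) =
        (D2 a b r - D2 a b s) / M := by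
      show -(b 1 - a 1) / M * (r 0 - s 0) + (b 0 - a 0) / M * (r 1 - s 1) = _
      unfold D2
      ring
    rw [e1, abs_div, abs_of_pos hkp]
    have h1 : |D2 a b r - D2 a b s| ≤ e + e' := (abs_sub _ _).trans (by linarith)
    have h0 : 0 ≤ e + e' := (abs_nonneg _).trans h1
    calc |D2 a b r - D2 a b s| / M ≤ (e + e') / M := div_le_div_of_nonneg_right h1 hkp.le
      _ ≤ (e + e') / δ := div_le_div_of_nonneg_left h0 hδ hk

/-- A covector which vanishes on a given vector. -/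
theorem covector_perp (v : Fin 2 → ℝ) : ∃ n : Fin 2 → ℝ, (∀ i, |n i| ≤ 1) ∧ (∃ i, |n i| = 1) ∧
    ∑ i, n i * v i = 0 := by
  by_cases h : ∃ i, v i ≠ 0
  · obtain ⟨i, hi⟩ := h
    have hab : Apt |v i| (fun _ => 0) v := ⟨i, by simp⟩
    obtain ⟨n, h1, h2, h3⟩ := covector (e := 0) (e' := 0) (abs_pos.2 hi) hab
    refine ⟨n, h1, h2, ?_⟩
    have h4 := h3 (fun _ => 0) v (by unfold D2; simp) (by unfold D2; simp; ring_nf)
    simp only [add_zero, zero_div, sub_zero] at h4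
    exact abs_nonpos_iff.1 h4
  · push Not at h
    refine ⟨fun _ => 1, fun _ => by simp, ⟨0, by simp⟩, ?_⟩
    simp [h]

end Pool.PLN
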