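import Pool.Agent.H1.DPL.Pln

/-!
# Planes of the references (PLN): the core
-/

set_option autoImplicit false

namespace Pool.PLN

open Finset Real
open Pool.Agent.H49.Ent Pool.Agent.H32.Dense Pool.STK

variable {Ω Λ ζ : Type} [Fintype Ω]

/-- The law of a reference through a point. -/
noncomputable def kz (P : Ω → ℝ) (L : Ω → Λ) (Z : Ω → ζ) (z : ζ) (ρ : Ω) : ℝ :=
  ∑ w, Pool.Agent.H49.Ent.cond P Z z w * Pool.Agent.H49.Ent.cond P L (L w) ρ

/-- The probability of an event of three references through a point. -/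
noncomputable def dz (P : Ω → ℝ) (L : Ω → Λ) (Z : Ω → ζ) (T : Ω → Ω → Ω → Prop) (z : ζ) : ℝ :=
  ∑ r0, kz P L Z z r0 * ∑ r1, kz P L Z z r1 * ∑ r2, kz P L Z z r2 * ind (T r0 r1 r2)

variable {P : Ω → ℝ} {L : Ω → Λ} {Z : Ω → ζ}

theorem kz_nonneg (hP : IsLaw P) (z : ζ) (ρ : Ω) : 0 ≤ kz P L Z z ρ :=
  Finset.sum_nonneg fun _ _ => mul_nonneg (cond_nonneg hP.nonneg _ _ _)
    (cond_nonneg hP.nonneg _ _ _)

theorem kz_sum (P : Ω → ℝ) (L : Ω → Λ) (Z : Ω → ζ) (z : ζ) (g : Ω → ℝ) :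
    ∑ ρ, kz P L Z z ρ * g ρ = ∑ w, Pool.Agent.H49.Ent.cond P Z z w *
      ∑ ρ, Pool.Agent.H49.Ent.cond P L (L w) ρ * g ρ := by
  unfold kz
  simp only [Finset.sum_mul, Finset.mul_sum]
  rw [Finset.sum_comm]
  exact Finset.sum_congr rfl fun w _ => Finset.sum_congr rfl fun ρ _ => by ring

theorem kz_law (hP : IsLaw P) {ω : Ω} (h : 0 < P ω) : IsLaw (kz P L Z (Z ω)) := by
  refine ⟨kz_nonneg hP _, ?_⟩
  have h1 := kz_sum P L Z (Z ω) (fun _ => 1)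
  simp only [mul_one] at h1
  rw [h1, ← (cond_law (Z := Z) hP h).sum_one]
  refine Finset.sum_congr rfl fun w _ => ?_
  rcases (cond_nonneg hP.nonneg Z (Z ω) w).eq_or_lt with h0 | h0
  · rw [← h0, zero_mul]
  · rw [(cond_law (Z := L) hP ((cond_pos_iff hP.nonneg Z (Z ω) w).1 h0).1).sum_one, mul_one]

theorem kz_pos (hP : IsLaw P) {z : ζ} {ρ : Ω} (h : 0 < kz P L Z z ρ) : 0 < P ρ := by
  by_contra hcon
  have h0 : P ρ = 0 := le_antisymm (not_lt.1 hcon) (hP.nonneg ρ)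
  unfold kz at h
  have : ∑ w, Pool.Agent.H49.Ent.cond P Z z w * Pool.Agent.H49.Ent.cond P L (L w) ρ = 0 := by
    refine Finset.sum_eq_zero fun w _ => ?_
    have : Pool.Agent.H49.Ent.cond P L (L w) ρ = 0 := by
      unfold Pool.Agent.H49.Ent.cond
      rw [h0, zero_div]
      split_ifs <;> rfl
    rw [this, mul_zero]
  rw [this] at h
  exact lt_irrefl _ h

theorem kz_Pr (P : Ω → ℝ) (L : Ω → Λ) (Z : Ω → ζ) (z : ζ) (E : Set Ω) :
    ∑ ω', Pool.Agent.H49.Ent.cond P Z z ω' * Pool.KAF.Pr (Pool.Agent.H49.Ent.cond P L (L ω')) E =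
      ∑ ρ, kz P L Z z ρ * ind (ρ ∈ E) := by
  rw [kz_sum]
  refine Finset.sum_congr rfl fun w _ => ?_
  congr 1
  exact law_ind _ _

theorem dz_nonneg (hP : IsLaw P) (T : Ω → Ω → Ω → Prop) (z : ζ) : 0 ≤ dz P L Z T z :=
  Finset.sum_nonneg fun _ _ => mul_nonneg (kz_nonneg hP _ _) (Finset.sum_nonneg fun _ _ =>
    mul_nonneg (kz_nonneg hP _ _) (Finset.sum_nonneg fun _ _ =>
      mul_nonneg (kz_nonneg hP _ _) (ind_nonneg _)))

/-- **The planes of the references.** -/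
theorem pln_core (hP : IsLaw P) (L : Ω → Λ) (Z : Ω → ζ) (S : Ω → Fin 2 → ℝ)
    {K p₀ ε δ δ1 δ4 : ℝ} (hK : 0 ≤ K) (hp₀ : 0 < p₀) (hp₀1 : p₀ ≤ 1) (hε : ε ≤ p₀ / 100)
    (hS : ∀ ω, 0 < P ω → ∀ i, |S ω i| ≤ K) (hδ : 0 < δ)
    (hδ4 : δ4 = (2 * K * (8 * K * δ1 / (δ / 2)) + 4 * K * δ1) / δ + δ1)
    (hsm : (δ4 + δ1) / (δ / 2) < δ)
    (h6a : Pool.KAF.Pr P {ω | Pool.KAF.Pr (Pool.Agent.H49.Ent.cond P L (L ω))
      {ρ | ∃ i, δ ≤ |S ρ i - S ω i|} < p₀} ≤ ε)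
    (h6b : Pool.KAF.Pr P {ω | ∃ n : Fin 2 → ℝ, (∀ i, |n i| ≤ 1) ∧ (∃ i, |n i| = 1) ∧
      ∑ ω', Pool.Agent.H49.Ent.cond P Z (Z ω) ω' *
        Pool.KAF.Pr (Pool.Agent.H49.Ent.cond P L (L ω'))
          {ρ | δ ≤ |∑ i, n i * (S ρ i - S ω i)|} < p₀} ≤ ε) :
    p₀ ^ 2 / 100 ≤ ∑ ω, P ω * dz P L Z (fun r0 r1 r2 => δ1 ≤ |D2 (S r0) (S r1) (S r2)|)
      (Z ω) := by
  classical
  by_contra hcon
  push Not at hcon
  have h0 := hP.nonneg
  obtain ⟨k, hk⟩ : ∃ k : ζ → Ω → ℝ, k = kz P L Z := ⟨_, rfl⟩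
  obtain ⟨d, hd⟩ : ∃ d : ζ → ℝ, d = dz P L Z (fun r0 r1 r2 => δ1 ≤ |D2 (S r0) (S r1) (S r2)|) :=
    ⟨_, rfl⟩
  rw [← hd] at hcon
  have hd0 : ∀ z, 0 ≤ d z := fun z => by
    rw [hd]
    exact dz_nonneg hP _ z
  -- the bad set of (H6b)
  obtain ⟨Bd, hBd⟩ : ∃ Bd : Ω → Prop, Bd = fun ω => ∃ n : Fin 2 → ℝ, (∀ i, |n i| ≤ 1) ∧
      (∃ i, |n i| = 1) ∧ ∑ ρ, k (Z ω) ρ * ind (δ ≤ |∑ i, n i * (S ρ i - S ω i)|) < p₀ := ⟨_, rfl⟩
  have hBds : ∑ ω, P ω * ind (Bd ω) ≤ ε := by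
    refine le_trans (le_of_eq ?_) h6b
    rw [show Pool.KAF.Pr P _ = law P _ True from rfl, law_ind]
    refine Finset.sum_congr rfl fun ω _ => ?_
    congr 2
    rw [hBd, hk]
    refine propext (exists_congr fun n => and_congr_right fun _ => and_congr_right fun _ => ?_)
    rw [kz_Pr]
    rfl
  obtain ⟨A0, hA0⟩ : ∃ A0 : Ω → Prop, A0 = fun ω =>
      ∑ ρ, Pool.Agent.H49.Ent.cond P L (L ω) ρ * ind (Apt δ (S ρ) (S ω)) < p₀ := ⟨_, rfl⟩
  have hA0s : ∑ ω, P ω * ind (A0 ω) ≤ ε := by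
    refine le_trans (le_of_eq ?_) h6a
    rw [show Pool.KAF.Pr P _ = law P _ True from rfl, law_ind]
    refine Finset.sum_congr rfl fun ω _ => ?_
    congr 2
    rw [hA0]
    show _ = (Pool.KAF.Pr (Pool.Agent.H49.Ent.cond P L (L ω)) _ < p₀)
    rw [show Pool.KAF.Pr (Pool.Agent.H49.Ent.cond P L (L ω)) _ = law _ _ True from rfl, law_ind]
    rfl
  -- concentrated points
  obtain ⟨conc, hconc⟩ : ∃ conc : ζ → Prop, conc = fun z => ∃ s : Fin 2 → ℝ,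
      ∑ ρ, k z ρ * ind (Apt (δ / 2) (S ρ) s) < p₀ := ⟨_, rfl⟩
  have hkl : ∀ ω, 0 < P ω → IsLaw (k (Z ω)) := fun ω hω => by
    rw [hk]
    exact kz_law hP hω
  have hk0 : ∀ z ρ, 0 ≤ k z ρ := fun z ρ => by
    rw [hk]
    exact kz_nonneg hP z ρ
  have hkp : ∀ z ρ, 0 < k z ρ → 0 < P ρ := fun z ρ h => by
    rw [hk] at h
    exact kz_pos hP h
  have hcB : ∀ ω, conc (Z ω) → Bd ω := by
    intro ω hω
    rw [hconc] at hω
    obtain ⟨s, hs⟩ := hω
    obtain ⟨n, hn1, hn2, hn3⟩ := covector_perp (fun i => s i - S ω i)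
    rw [hBd]
    refine ⟨n, hn1, hn2, lt_of_le_of_lt ?_ hs⟩
    refine Finset.sum_le_sum fun ρ _ => mul_le_mul_of_nonneg_left (ind_mono fun hρ => ?_) (hk0 _ _)
    have e1 : ∑ i, n i * (S ρ i - S ω i) = ∑ i, n i * (S ρ i - s i) := by
      have : ∀ i, n i * (S ρ i - S ω i) = n i * (S ρ i - s i) + n i * (s i - S ω i) :=
        fun i => by ring
      simp only [this]
      rw [Finset.sum_add_distrib, hn3, add_zero]
    rw [e1, Fin.sum_univ_two] at hρ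
    by_contra hno
    unfold Apt at hno
    push Not at hno
    have b0 : |n 0 * (S ρ 0 - s 0)| ≤ 1 * |S ρ 0 - s 0| := by
      rw [abs_mul]
      exact mul_le_mul_of_nonneg_right (hn1 0) (abs_nonneg _)
    have b1 : |n 1 * (S ρ 1 - s 1)| ≤ 1 * |S ρ 1 - s 1| := by
      rw [abs_mul]
      exact mul_le_mul_of_nonneg_right (hn1 1) (abs_nonneg _)
    have b2 := abs_add_le (n 0 * (S ρ 0 - s 0)) (n 1 * (S ρ 1 - s 1))
    have b3 := hno 0
    have b4 := hno 1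
    linarith
  -- the lines of the points
  have hsel : ∀ z, ∃ ab : (Fin 2 → ℝ) × (Fin 2 → ℝ), (∃ ω, 0 < P ω ∧ Z ω = z) → ¬ conc z →
      Apt (δ / 2) ab.1 ab.2 ∧ (∀ i, |ab.1 i| ≤ K) ∧ (∀ i, |ab.2 i| ≤ K) ∧
        ∑ ρ, k z ρ * ind (δ1 ≤ |D2 ab.1 ab.2 (S ρ)|) ≤ d z / p₀ := by
    intro z
    by_cases hz : (∃ ω, 0 < P ω ∧ Z ω = z) ∧ ¬ conc z
    · obtain ⟨⟨ω, hω, rfl⟩, hc⟩ := hz
      have hl := hkl ω hω
      obtain ⟨x, y, hx, hy, hxy, hF⟩ := avg2 (hk0 (Z ω)) (fun x y => Apt (δ / 2) (S y) (S x))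
        (F := fun x y => ∑ ρ, k (Z ω) ρ * ind (δ1 ≤ |D2 (S x) (S y) (S ρ)|))
        (fun x y => Finset.sum_nonneg fun ρ _ => mul_nonneg (hk0 _ _) (ind_nonneg _))
        (α := p₀) (M := d (Z ω)) hp₀ (by
          have h1 : ∀ x, p₀ ≤ ∑ y, k (Z ω) y * ind (Apt (δ / 2) (S y) (S x)) := by
            intro x
            by_contra hno
            push Not at hno
            rw [hconc] at hc
            exact hc ⟨S x, hno⟩
          calc p₀ = ∑ x, k (Z ω) x * p₀ := by rw [← Finset.sum_mul, hl.sum_one, one_mul]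
            _ ≤ _ := Finset.sum_le_sum fun x _ => mul_le_mul_of_nonneg_left (h1 x) (hk0 _ _))
        (by rw [hd, hk]; exact le_rfl)
      exact ⟨(S x, S y), fun _ _ => ⟨hxy.symm, hS x (hkp _ _ hx), hS y (hkp _ _ hy), hF⟩⟩
    · refine ⟨(0, 0), fun h1 h2 => absurd ⟨h1, h2⟩ hz⟩
  choose ab hab using hsel
  obtain ⟨B, hB⟩ : ∃ B : Ω → Ω → Prop, B = fun w ρ => conc (Z w) ∨
      δ1 ≤ |D2 (ab (Z w)).1 (ab (Z w)).2 (S ρ)| := ⟨_, rfl⟩
  have hcL : ∀ ω, 0 < P ω → IsLaw (Pool.Agent.H49.Ent.cond P L (L ω)) := fun ω hω =>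
    cond_law hP hω
  -- the total probability of the bad pairs
  have hBs : ∑ w, P w * ∑ ρ, Pool.Agent.H49.Ent.cond P L (L w) ρ * ind (B w ρ) ≤
      ε + p₀ / 100 := by
    obtain ⟨G, hG⟩ : ∃ G : ζ → Ω → ℝ, G = fun z ρ =>
      ind (¬ conc z ∧ δ1 ≤ |D2 (ab z).1 (ab z).2 (S ρ)|) := ⟨_, rfl⟩
    have s1 : ∑ w, P w * ∑ ρ, Pool.Agent.H49.Ent.cond P L (L w) ρ * ind (B w ρ) ≤
        ∑ w, P w * ind (Bd w) +
          ∑ w, P w * ∑ ρ, Pool.Agent.H49.Ent.cond P L (L w) ρ * G (Z w) ρ := by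
      rw [← Finset.sum_add_distrib]
      refine Finset.sum_le_sum fun w _ => ?_
      rcases (h0 w).eq_or_lt with hw | hw
      · rw [← hw]; simp
      rw [← mul_add]
      refine mul_le_mul_of_nonneg_left ?_ hw.le
      have hl := hcL w hw
      have e1 : ind (Bd w) = ∑ ρ, Pool.Agent.H49.Ent.cond P L (L w) ρ * ind (Bd w) := by
        rw [← Finset.sum_mul, hl.sum_one, one_mul]
      rw [e1, ← Finset.sum_add_distrib]
      refine Finset.sum_le_sum fun ρ _ => ?_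
      rw [← mul_add]
      refine mul_le_mul_of_nonneg_left ?_ (hl.nonneg ρ)
      by_cases hc : conc (Z w)
      · rw [ind_of (hcB w hc)]
        have := ind_le_one (B w ρ)
        have : 0 ≤ G (Z w) ρ := by rw [hG]; exact ind_nonneg _
        linarith
      · have h3 : ind (B w ρ) ≤ G (Z w) ρ := by
          rw [hG, hB]
          refine ind_mono fun h => ⟨hc, h.resolve_left hc⟩
        linarith [ind_nonneg (Bd w)]
    have s2 : ∑ w, P w * ∑ ρ, Pool.Agent.H49.Ent.cond P L (L w) ρ * G (Z w) ρ =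
        ∑ ω, P ω * ∑ ρ, k (Z ω) ρ * G (Z ω) ρ := by
      have := sum_cc' (Z := Z) hP (fun z w =>
        ∑ ρ, Pool.Agent.H49.Ent.cond P L (L w) ρ * G z ρ)
      rw [← this]
      refine Finset.sum_congr rfl fun ω _ => ?_
      rw [hk, kz_sum]
    have s3 : ∑ ω, P ω * ∑ ρ, k (Z ω) ρ * G (Z ω) ρ ≤ p₀ / 100 := by
      have t1 : ∑ ω, P ω * ∑ ρ, k (Z ω) ρ * G (Z ω) ρ ≤ ∑ ω, P ω * (d (Z ω) / p₀) := by
        refine Finset.sum_le_sum fun ω _ => ?_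
        rcases (h0 ω).eq_or_lt with hw | hw
        · rw [← hw, zero_mul, zero_mul]
        refine mul_le_mul_of_nonneg_left ?_ hw.le
        by_cases hc : conc (Z ω)
        · have : ∑ ρ, k (Z ω) ρ * G (Z ω) ρ = 0 := by
            refine Finset.sum_eq_zero fun ρ _ => ?_
            rw [hG]
            show k (Z ω) ρ * ind _ = 0
            rw [ind_not (fun h => h.1 hc), mul_zero]
          rw [this]
          exact div_nonneg (hd0 _) hp₀.le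
        · refine le_trans (Finset.sum_le_sum fun ρ _ => mul_le_mul_of_nonneg_left ?_ (hk0 _ _))
            (hab (Z ω) ⟨ω, hw, rfl⟩ hc).2.2.2
          rw [hG]
          exact ind_mono fun h => h.2
      refine t1.trans ?_
      have e1 : ∑ ω, P ω * (d (Z ω) / p₀) = (∑ ω, P ω * d (Z ω)) / p₀ := by
        rw [Finset.sum_div]
        exact Finset.sum_congr rfl fun ω _ => by ring
      rw [e1, div_le_iff₀ hp₀]
      refine hcon.le.trans (le_of_eq ?_)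
      ring
    rw [s2] at s1
    linarith
  -- good samples
  obtain ⟨Gd, hGd⟩ : ∃ Gd : Ω → Prop, Gd = fun w => ¬ conc (Z w) ∧
      |D2 (ab (Z w)).1 (ab (Z w)).2 (S w)| ≤ δ4 := ⟨_, rfl⟩
  have hline : ∀ ω, 0 < P ω → ∑ w, Pool.Agent.H49.Ent.cond P L (L ω) w * ind (¬ Gd w) ≤
      10 / p₀ * (∑ w, Pool.Agent.H49.Ent.cond P L (L ω) w *
        ∑ ρ, Pool.Agent.H49.Ent.cond P L (L ω) ρ * ind (B w ρ)) +
      2 * ∑ w, Pool.Agent.H49.Ent.cond P L (L ω) w * ind (A0 w) := by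
    intro ω hω
    have hl := hcL ω hω
    obtain ⟨c, hc⟩ : ∃ c : Ω → ℝ, c = Pool.Agent.H49.Ent.cond P L (L ω) := ⟨_, rfl⟩
    rw [← hc] at hl ⊢
    have c0 := hl.nonneg
    have hcP : ∀ w, 0 < c w → 0 < P w ∧ L w = L ω := fun w hw => by
      rw [hc] at hw
      exact (cond_pos_iff h0 L (L ω) w).1 hw
    obtain ⟨b, hb⟩ : ∃ b, b = ∑ w, c w * ∑ ρ, c ρ * ind (B w ρ) := ⟨_, rfl⟩
    obtain ⟨a, ha⟩ : ∃ a, a = ∑ w, c w * ind (A0 w) := ⟨_, rfl⟩
    rw [← hb, ← ha]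
    have hb0 : 0 ≤ b := by
      rw [hb]
      exact Finset.sum_nonneg fun w _ => mul_nonneg (c0 w) (Finset.sum_nonneg fun ρ _ =>
        mul_nonneg (c0 ρ) (ind_nonneg _))
    have ha0 : 0 ≤ a := by
      rw [ha]
      exact Finset.sum_nonneg fun w _ => mul_nonneg (c0 w) (ind_nonneg _)
    have hle1 : ∑ w, c w * ind (¬ Gd w) ≤ 1 := by
      rw [← hl.sum_one]
      refine Finset.sum_le_sum fun w _ => ?_
      have := mul_le_mul_of_nonneg_left (ind_le_one (¬ Gd w)) (c0 w)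
      linarith
    have hbp : 0 ≤ 10 / p₀ * b := by positivity
    by_cases h1 : 1 ≤ 2 * a
    · linarith
    by_cases h2 : 1 ≤ 10 / p₀ * b
    · linarith
    push Not at h1 h2
    have h3 : 5 * b < p₀ / 2 := by
      rw [div_mul_eq_mul_div, div_lt_one hp₀] at h2
      linarith
    have hα : p₀ / 2 ≤ ∑ ρ, c ρ * ∑ ρ', c ρ' * ind (Apt δ (S ρ') (S ρ)) := by
      have t1 : ∀ ρ, c ρ * ((1 - ind (A0 ρ)) * p₀) ≤
          c ρ * ∑ ρ', c ρ' * ind (Apt δ (S ρ') (S ρ)) := by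
        intro ρ
        rcases (c0 ρ).eq_or_lt with h4 | h4
        · rw [← h4, zero_mul, zero_mul]
        refine mul_le_mul_of_nonneg_left ?_ h4.le
        have hs0 : 0 ≤ ∑ ρ', c ρ' * ind (Apt δ (S ρ') (S ρ)) :=
          Finset.sum_nonneg fun ρ' _ => mul_nonneg (c0 ρ') (ind_nonneg _)
        by_cases h5 : A0 ρ
        · rw [ind_of h5, sub_self, zero_mul]
          exact hs0
        · rw [ind_not h5, sub_zero, one_mul]
          rw [hA0] at h5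
          have h6 := not_lt.1 h5
          rw [(hcP ρ h4).2, ← hc] at h6
          exact h6
      refine le_trans ?_ (Finset.sum_le_sum fun ρ _ => t1 ρ)
      have e1 : ∀ ρ, c ρ * ((1 - ind (A0 ρ)) * p₀) = p₀ * c ρ - p₀ * (c ρ * ind (A0 ρ)) :=
        fun ρ => by ring
      simp only [e1]
      rw [Finset.sum_sub_distrib, ← Finset.mul_sum, ← Finset.mul_sum, hl.sum_one, ← ha]
      nlinarith
    obtain ⟨w', ρ, ρ', hw', hρ, hρ', hap, hn1, hn2, hsum⟩ := line_step hl B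
      (fun ρ ρ' => Apt δ (S ρ') (S ρ)) (by positivity : 0 < p₀ / 2) (le_of_eq hb.symm) hα h3
    have h5 : 5 * b / (p₀ / 2) = 10 / p₀ * b := by
      field_simp
      ring
    rw [h5] at hsum
    refine le_trans ?_ (hsum.trans (by linarith))
    refine Finset.sum_le_sum fun w _ => ?_
    rcases (c0 w).eq_or_lt with h6 | h6
    · rw [← h6, zero_mul, zero_mul]
    refine mul_le_mul_of_nonneg_left (ind_mono fun hng => ?_) h6.le
    by_contra hno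
    push Not at hno
    obtain ⟨m1, m2, m3⟩ := hno
    apply hng
    rw [hB] at hn1 hn2 m1 m2 m3
    push Not at hn1 hn2 m1 m2 m3
    have z1 := hab (Z w') ⟨w', (hcP w' hw').1, rfl⟩ m1.1
    have z2 := hab (Z w) ⟨w, (hcP w h6).1, rfl⟩ m2.1
    have kρ := hS ρ (hcP ρ hρ).1
    have kρ' := hS ρ' (hcP ρ' hρ').1
    have kw := hS w (hcP w h6).1
    have g1 := col_of_line hK (by positivity : 0 < δ / 2) z1.1 hn1.2.le hn2.2.le m1.2.le
      kρ kρ' kw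
    have g2 := line_of_col hK hδ hap.symm m2.2.le m3.2.le g1 z2.2.1 z2.2.2.1 kρ kw
    rw [hGd]
    exact ⟨m2.1, g2.trans (le_of_eq hδ4.symm)⟩
  have hGs : ∑ w, P w * ind (¬ Gd w) ≤ 10 / p₀ * (ε + p₀ / 100) + 2 * ε := by
    have t1 : ∑ ω, P ω * ∑ w, Pool.Agent.H49.Ent.cond P L (L ω) w * ind (¬ Gd w) ≤
        ∑ ω, P ω * (10 / p₀ * (∑ w, Pool.Agent.H49.Ent.cond P L (L ω) w *
        ∑ ρ, Pool.Agent.H49.Ent.cond P L (L ω) ρ * ind (B w ρ)) +
      2 * ∑ w, Pool.Agent.H49.Ent.cond P L (L ω) w * ind (A0 w)) := by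
      refine Finset.sum_le_sum fun ω _ => ?_
      rcases (h0 ω).eq_or_lt with hw | hw
      · rw [← hw, zero_mul, zero_mul]
      exact mul_le_mul_of_nonneg_left (hline ω hw) hw.le
    rw [sum_cc hP] at t1
    refine t1.trans ?_
    have e1 : ∀ ω, P ω * (10 / p₀ * (∑ w, Pool.Agent.H49.Ent.cond P L (L ω) w *
        ∑ ρ, Pool.Agent.H49.Ent.cond P L (L ω) ρ * ind (B w ρ)) +
        2 * ∑ w, Pool.Agent.H49.Ent.cond P L (L ω) w * ind (A0 w)) =
        10 / p₀ * (P ω * (∑ w, Pool.Agent.H49.Ent.cond P L (L ω) w *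
        ∑ ρ, Pool.Agent.H49.Ent.cond P L (L ω) ρ * ind (B w ρ))) +
        2 * (P ω * ∑ w, Pool.Agent.H49.Ent.cond P L (L ω) w * ind (A0 w)) := fun ω => by ring
    simp only [e1]
    rw [Finset.sum_add_distrib, ← Finset.mul_sum, ← Finset.mul_sum, sum_cc hP,
      sum_cc' (Z := L) hP (fun l w => ∑ ρ, Pool.Agent.H49.Ent.cond P L l ρ * ind (B w ρ))]
    refine add_le_add (mul_le_mul_of_nonneg_left hBs (by positivity)) ?_
    linarith
  -- good samples are bad for (H6b)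
  have hfin : ∀ ω, 0 < P ω → 1 ≤ ind (¬ Gd ω) + (d (Z ω) / p₀ ^ 2) + ind (Bd ω) := by
    intro ω hω
    have i1 := ind_nonneg (¬ Gd ω)
    have i2 := ind_nonneg (Bd ω)
    have i3 : 0 ≤ d (Z ω) / p₀ ^ 2 := div_nonneg (hd0 _) (by positivity)
    by_cases h1 : Gd ω
    · by_cases h2 : p₀ ^ 2 ≤ d (Z ω)
      · have : 1 ≤ d (Z ω) / p₀ ^ 2 := by
          rw [le_div_iff₀ (by positivity)]
          linarith
        linarith
      · push Not at h2
        have h3 : Bd ω := by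
          rw [hGd] at h1
          obtain ⟨hc, hD⟩ := h1
          obtain ⟨z1, z2, z3, z4⟩ := hab (Z ω) ⟨ω, hω, rfl⟩ hc
          obtain ⟨n, n1, n2, n3⟩ := covector (e := δ4) (e' := δ1) (by positivity : 0 < δ / 2) z1
          rw [hBd]
          refine ⟨n, n1, n2, ?_⟩
          have t1 : ∑ ρ, k (Z ω) ρ * ind (δ ≤ |∑ i, n i * (S ρ i - S ω i)|) ≤ d (Z ω) / p₀ := by
            refine le_trans (Finset.sum_le_sum fun ρ _ => mul_le_mul_of_nonneg_left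
              (ind_mono fun h => ?_) (hk0 _ _)) z4
            by_contra hno
            push Not at hno
            have := n3 (S ω) (S ρ) hD hno.le
            linarith
          refine lt_of_le_of_lt t1 ?_
          rw [div_lt_iff₀ hp₀]
          linarith [h2, sq p₀]
        rw [ind_of h3]
        linarith
    · rw [ind_of h1]
      linarith
  have hsum1 : ∑ ω, P ω ≤ ∑ ω, P ω * (ind (¬ Gd ω) + (d (Z ω) / p₀ ^ 2) + ind (Bd ω)) := by
    refine Finset.sum_le_sum fun ω _ => ?_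
    rcases (h0 ω).eq_or_lt with hw | hw
    · rw [← hw, zero_mul]
    · have := mul_le_mul_of_nonneg_left (hfin ω hw) hw.le
      linarith
  rw [hP.sum_one] at hsum1
  have e1 : ∀ ω, P ω * (ind (¬ Gd ω) + (d (Z ω) / p₀ ^ 2) + ind (Bd ω)) =
      P ω * ind (¬ Gd ω) + (P ω * d (Z ω)) / p₀ ^ 2 + P ω * ind (Bd ω) := fun ω => by ring
  simp only [e1] at hsum1
  rw [Finset.sum_add_distrib, Finset.sum_add_distrib, ← Finset.sum_div] at hsum1
  have f1 : (∑ ω, P ω * d (Z ω)) / p₀ ^ 2 ≤ 1 / 100 := by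
    rw [div_le_iff₀ (by positivity)]
    linarith
  have f2 : 10 / p₀ * (ε + p₀ / 100) ≤ 10 / p₀ * (p₀ / 100 + p₀ / 100) :=
    mul_le_mul_of_nonneg_left (by linarith) (by positivity)
  have f3 : 10 / p₀ * (p₀ / 100 + p₀ / 100) = 1 / 5 := by
    field_simp
    norm_num
  linarith

end Pool.PLN
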