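import Pool.Agent.H1.DPL.PlnT
import Pool.Agent.H8.DPL.Defs

/-!
# Planes of the references: the form of `Pool.DPL`
-/

set_option autoImplicit false

namespace Pool.PLN

open Finset Real
open Pool.Agent.H49.Ent Pool.Agent.H32.Dense Pool.STK Pool.PLV

/-- The probability of an event of three references, as a sum. -/
theorem dz_three {Ω Λ ζ : Type} [Fintype Ω] (P : Ω → ℝ) (L : Ω → Λ) (Z : Ω → ζ)
    (T : Ω → Ω → Ω → Prop) (z : ζ) :
    ∑ w : Fin 3 → Ω × Ω, (∏ k, Pool.Agent.H49.Ent.cond P Z z (w k).1 *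
      Pool.Agent.H49.Ent.cond P L (L (w k).1) (w k).2) * ind (T (w 0).2 (w 1).2 (w 2).2) =
      dz P L Z T z := by
  have e1 : ∀ (g : Ω → ℝ), ∑ u : Ω × Ω, Pool.Agent.H49.Ent.cond P Z z u.1 *
      Pool.Agent.H49.Ent.cond P L (L u.1) u.2 * g u.2 = ∑ ρ, kz P L Z z ρ * g ρ := by
    intro g
    rw [Fintype.sum_prod_type, kz_sum]
    refine Finset.sum_congr rfl fun w _ => ?_
    rw [Finset.mul_sum]
    exact Finset.sum_congr rfl fun ρ _ => by ring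
  rw [sum_three (fun u : Ω × Ω => Pool.Agent.H49.Ent.cond P Z z u.1 *
      Pool.Agent.H49.Ent.cond P L (L u.1) u.2) (fun x y z => ind (T x.2 y.2 z.2))]
  unfold dz
  rw [← e1 (fun r0 => ∑ r1, kz P L Z z r1 * ∑ r2, kz P L Z z r2 * ind (T r0 r1 r2))]
  refine Finset.sum_congr rfl fun x _ => ?_
  congr 1
  rw [← e1 (fun r1 => ∑ r2, kz P L Z z r2 * ind (T x.2 r1 r2))]
  refine Finset.sum_congr rfl fun y _ => ?_
  congr 1
  rw [← e1 (fun r2 => ind (T x.2 y.2 r2))]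

theorem H6aR_mono {Ω Λ : Type} [Fintype Ω] {c : ℕ} {p : Ω → ℝ} (hp : IsLaw p) {L : Ω → Λ}
    {S : Ω → Fin c → ℝ} {X : ℕ} {x₀ p₀ p₀' ε : ℝ} (h : p₀' ≤ p₀)
    (H : Pool.OCV.H6aR p L S X x₀ p₀ ε) : Pool.OCV.H6aR p L S X x₀ p₀' ε := by
  unfold Pool.OCV.H6aR at *
  refine le_trans ?_ H
  rw [show Pool.KAF.Pr p _ = law p _ True from rfl, show Pool.KAF.Pr p _ = law p _ True from rfl,
    law_ind, law_ind]
  exact Finset.sum_le_sum fun ω _ => mul_le_mul_of_nonneg_left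
    (ind_mono fun hω => lt_of_lt_of_le hω h) (hp.nonneg ω)

theorem H6bR_mono {Ω Λ ξ : Type} [Fintype Ω] {c : ℕ} {p : Ω → ℝ} (hp : IsLaw p) {L : Ω → Λ}
    {pt : Ω → ξ} {S : Ω → Fin c → ℝ} {X : ℕ} {x₀ p₀ p₀' ε : ℝ} (h : p₀' ≤ p₀)
    (H : Pool.OCV.H6bR p L pt S X x₀ p₀ ε) : Pool.OCV.H6bR p L pt S X x₀ p₀' ε := by
  unfold Pool.OCV.H6bR at *
  refine le_trans ?_ H
  rw [show Pool.KAF.Pr p _ = law p _ True from rfl, show Pool.KAF.Pr p _ = law p _ True from rfl,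
    law_ind, law_ind]
  refine Finset.sum_le_sum fun ω _ => mul_le_mul_of_nonneg_left
    (ind_mono fun hω => ?_) (hp.nonneg ω)
  obtain ⟨n, h1, h2, h3⟩ := hω
  exact ⟨n, h1, h2, lt_of_lt_of_le h3 h⟩

/-- **(PLN)** -/
theorem pln_stmt : Pool.DPL.PLNStmt := by
  classical
  intro p₀ K hp₀
  obtain ⟨q, hq⟩ : ∃ q : ℝ, q = min p₀ 1 := ⟨_, rfl⟩
  have hq0 : 0 < q := by rw [hq]; exact lt_min hp₀ one_pos
  have hq1 : q ≤ 1 := by rw [hq]; exact min_le_right _ _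
  have hqp : q ≤ p₀ := by rw [hq]; exact min_le_left _ _
  refine ⟨q ^ 2 / 100, q / 100, by positivity, by positivity, ?_⟩
  intro x₁ hx₁
  obtain ⟨X₀, h⟩ := pln_thm (max K 0) q (x₁ / 5) (le_max_right _ _) hq0 hq1 (by positivity)
  refine ⟨x₁ / 5, X₀, by positivity, ?_⟩
  intro Ω Λ ξ _ p sl pt S X hp hX hS _ h6a h6b
  have key := h Ω Λ ξ p sl pt S X hp (fun ω hω i => (hS ω hω i).trans (le_max_left _ _)) hX
    (H6aR_mono hp hqp h6a) (H6bR_mono hp hqp h6b)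
  rw [itr_three hp (fun r0 r1 r2 => (2 : ℝ) ^ (-(5 * (x₁ / 5) * X)) ≤
    |D2 (S r0) (S r1) (S r2)|)] at key
  refine key.trans (le_of_eq ?_)
  refine Finset.sum_congr rfl fun ω _ => ?_
  congr 1
  rw [← dz_three]
  refine Finset.sum_congr rfl fun w _ => ?_
  congr 1
  have e5 : 5 * (x₁ / 5) * (X : ℝ) = x₁ * X := by ring
  rw [e5]
  unfold ind D2
  rfl

end Pool.PLN
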