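import Pool.Agent.H1.DPL.PlnC
import Pool.Agent.H46.S6.Itr

/-!
# Planes of the references (PLN)

`(H6a)` and `(H6b)` (with the own slope) imply that the slopes of three references through one
point are not collinear with probability at least `p₀ ^ 2 / 100`.
-/

set_option autoImplicit false

namespace Pool.PLN

open Finset Real
open Pool.Agent.H49.Ent Pool.Agent.H32.Dense Pool.STK Pool.PLV

variable {Ω Λ ζ : Type} [Fintype Ω] {P : Ω → ℝ} {L : Ω → Λ} {Z : Ω → ζ}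

/-- The law of pairs. -/
theorem dbl_eq (P : Ω → ℝ) (L : Ω → Λ) (w ρ : Ω) :
    dbl P L (w, ρ) = P w * Pool.Agent.H49.Ent.cond P L (L w) ρ := by
  unfold dbl glue Pool.Agent.H49.Ent.cond
  dsimp only
  by_cases h : L w = L ρ
  · rw [if_pos h, if_pos h.symm]
    ring
  · rw [if_neg h, if_neg (fun e => h e.symm), mul_zero]

theorem dbl_fst (hP : IsLaw P) (w : Ω) : ∑ ρ, dbl P L (w, ρ) = P w := by
  simp only [dbl_eq]
  rw [← Finset.mul_sum]
  rcases (hP.nonneg w).eq_or_lt with h0 | h0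
  · rw [← h0, zero_mul]
  · rw [(cond_law (Z := L) hP h0).sum_one, mul_one]

theorem dbl_law (hP : IsLaw P) : IsLaw (dbl P L) := by
  refine ⟨fun w => glue_nonneg hP.nonneg hP.nonneg w, ?_⟩
  rw [Fintype.sum_prod_type]
  simp only [dbl_fst hP]
  exact hP.sum_one

theorem law_dbl (hP : IsLaw P) (z : ζ) :
    law (dbl P L) (fun w : Ω × Ω => Z w.1) z = law P Z z := by
  classical
  unfold law
  rw [Fintype.sum_prod_type]
  refine Finset.sum_congr rfl fun w _ => ?_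
  dsimp only
  by_cases h : Z w = z
  · simp only [if_pos h]
    exact dbl_fst hP w
  · simp only [if_neg h, Finset.sum_const_zero]

theorem cond_dbl (hP : IsLaw P) (z : ζ) (w ρ : Ω) :
    Pool.Agent.H49.Ent.cond (dbl P L) (fun w : Ω × Ω => Z w.1) z (w, ρ) =
      Pool.Agent.H49.Ent.cond P Z z w * Pool.Agent.H49.Ent.cond P L (L w) ρ := by
  classical
  have h1 := law_dbl (L := L) (Z := Z) hP z
  unfold Pool.Agent.H49.Ent.cond at *
  dsimp only
  by_cases h : Z w = z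
  · rw [if_pos h, if_pos h, h1, dbl_eq]
    unfold Pool.Agent.H49.Ent.cond
    ring
  · rw [if_neg h, if_neg h, zero_mul]

/-- Sums over three samples. -/
theorem sum_three {X : Type} [Fintype X] (c : X → ℝ) (g : X → X → X → ℝ) :
    ∑ v : Fin 3 → X, (∏ k, c (v k)) * g (v 0) (v 1) (v 2) =
      ∑ x, c x * ∑ y, c y * ∑ z, c z * g x y z := by
  have e : ∀ (n : ℕ) (f : (Fin (n + 1) → X) → ℝ),
      ∑ v : Fin (n + 1) → X, f v = ∑ x, ∑ v : Fin n → X, f (Fin.cons x v) := by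
    intro n f
    rw [← (Fin.consEquiv (fun _ : Fin (n + 1) => X)).sum_comp, Fintype.sum_prod_type]
    rfl
  rw [e]
  refine Finset.sum_congr rfl fun x _ => ?_
  rw [e, Finset.mul_sum]
  refine Finset.sum_congr rfl fun y _ => ?_
  rw [e, Finset.mul_sum, Finset.mul_sum]
  refine Finset.sum_congr rfl fun z _ => ?_
  rw [Fintype.sum_unique]
  rw [Fin.prod_univ_three]
  simp only [Fin.cons_zero]
  have h1 : (Fin.cons x (Fin.cons y (Fin.cons z default : Fin 1 → X) : Fin 2 → X) :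
      Fin 3 → X) 1 = y := rfl
  have h2 : (Fin.cons x (Fin.cons y (Fin.cons z default : Fin 1 → X) : Fin 2 → X) :
      Fin 3 → X) 2 = z := rfl
  rw [h1, h2]
  ring

/-- The probability of an event of three references. -/
theorem itr_three (hP : IsLaw P) (T : Ω → Ω → Ω → Prop) :
    law (itr (dbl P L) (fun w : Ω × Ω => Z w.1) 3)
      (fun w => T (w.2 0).2 (w.2 1).2 (w.2 2).2) True = ∑ ω, P ω * dz P L Z T (Z ω) := by
  classical
  rw [law_ind, Fintype.sum_prod_type]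
  have e1 : ∀ (z : ζ) (g : Ω → ℝ), ∑ u : Ω × Ω,
      Pool.Agent.H49.Ent.cond (dbl P L) (fun w : Ω × Ω => Z w.1) z u * g u.2 =
      ∑ ρ, kz P L Z z ρ * g ρ := by
    intro z g
    rw [Fintype.sum_prod_type, kz_sum]
    refine Finset.sum_congr rfl fun w _ => ?_
    rw [Finset.mul_sum]
    refine Finset.sum_congr rfl fun ρ _ => ?_
    rw [cond_dbl hP]
    ring
  have e2 : ∀ u : Ω × Ω, ∑ v : Fin 3 → Ω × Ω, itr (dbl P L) (fun w : Ω × Ω => Z w.1) 3 (u, v) *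
      ind (T (v 0).2 (v 1).2 (v 2).2) = dbl P L u * dz P L Z T (Z u.1) := by
    intro u
    have e3 : ∀ v : Fin 3 → Ω × Ω, itr (dbl P L) (fun w : Ω × Ω => Z w.1) 3 (u, v) *
        ind (T (v 0).2 (v 1).2 (v 2).2) = dbl P L u * ((∏ k,
          Pool.Agent.H49.Ent.cond (dbl P L) (fun w : Ω × Ω => Z w.1) (Z u.1) (v k)) *
            ind (T (v 0).2 (v 1).2 (v 2).2)) := by
      intro v
      unfold itr
      ring
    simp only [e3]
    rw [← Finset.mul_sum, sum_three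
      (Pool.Agent.H49.Ent.cond (dbl P L) (fun w : Ω × Ω => Z w.1) (Z u.1))
      (fun x y z => ind (T x.2 y.2 z.2))]
    congr 1
    unfold dz
    rw [← e1 (Z u.1) (fun r0 => ∑ r1, kz P L Z (Z u.1) r1 *
      ∑ r2, kz P L Z (Z u.1) r2 * ind (T r0 r1 r2))]
    refine Finset.sum_congr rfl fun x _ => ?_
    congr 1
    rw [← e1 (Z u.1) (fun r1 => ∑ r2, kz P L Z (Z u.1) r2 * ind (T x.2 r1 r2))]
    refine Finset.sum_congr rfl fun y _ => ?_
    congr 1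
    rw [← e1 (Z u.1) (fun r2 => ind (T x.2 y.2 r2))]
  simp only [e2]
  rw [Fintype.sum_prod_type]
  refine Finset.sum_congr rfl fun ω _ => ?_
  dsimp only
  rw [← Finset.sum_mul, dbl_fst hP]

/-- The determinant of three vectors `(1, a)`. -/
theorem det_eq (a : Fin 3 → Fin 2 → ℝ) :
    Matrix.det (fun i : Fin 3 => (Fin.cons 1 (a i) : Fin 3 → ℝ)) = D2 (a 0) (a 1) (a 2) := by
  rw [Matrix.det_fin_three]
  have h1 : ∀ i, (Fin.cons 1 (a i) : Fin 3 → ℝ) 0 = 1 := fun i => rfl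
  have h2 : ∀ i, (Fin.cons 1 (a i) : Fin 3 → ℝ) 1 = a i 0 := fun i => rfl
  have h3 : ∀ i, (Fin.cons 1 (a i) : Fin 3 → ℝ) 2 = a i 1 := fun i => rfl
  simp only [h1, h2, h3]
  unfold D2
  ring

/-- **(PLN)** Three references through one point: their slopes are not collinear, with probability
at least `p₀ ^ 2 / 100`. -/
theorem pln_thm (K p₀ x₀ : ℝ) (hK : 0 ≤ K) (hp₀ : 0 < p₀) (hp₀1 : p₀ ≤ 1) (hx₀ : 0 < x₀) :
    ∃ X₀ : ℕ, ∀ (Ω Λ ζ : Type) [Fintype Ω] (P : Ω → ℝ) (L : Ω → Λ) (Z : Ω → ζ)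
      (S : Ω → Fin 2 → ℝ) (X : ℕ), IsLaw P → (∀ ω, 0 < P ω → ∀ i, |S ω i| ≤ K) → X₀ ≤ X →
      Pool.OCV.H6aR P L S X x₀ p₀ (p₀ / 100) → Pool.OCV.H6bR P L Z S X x₀ p₀ (p₀ / 100) →
      p₀ ^ 2 / 100 ≤ law (itr (dbl P L) (fun w : Ω × Ω => Z w.1) 3)
        (fun w => (2 : ℝ) ^ (-(5 * x₀ * X)) ≤
          |D2 (S (w.2 0).2) (S (w.2 1).2) (S (w.2 2).2)|) True := by
  obtain ⟨M, hM⟩ : ∃ M : ℝ, M = 64 * K ^ 2 + 8 * K + 5 := ⟨_, rfl⟩
  have hM0 : 0 < M := by rw [hM]; positivity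
  obtain ⟨X₀, hX₀⟩ := exists_nat_gt (Real.log M / (x₀ * Real.log 2))
  have hl2 : 0 < Real.log 2 := Real.log_pos (by norm_num)
  refine ⟨X₀, ?_⟩
  intro Ω Λ ζ _ P L Z S X hP hS hX h6a h6b
  rw [itr_three hP (fun r0 r1 r2 => (2 : ℝ) ^ (-(5 * x₀ * X)) ≤ |D2 (S r0) (S r1) (S r2)|)]
  obtain ⟨δ, hδ⟩ : ∃ δ : ℝ, δ = (2 : ℝ) ^ (-(x₀ * X)) := ⟨_, rfl⟩
  have hδ0 : 0 < δ := by rw [hδ]; positivity
  have hδ5 : (2 : ℝ) ^ (-(5 * x₀ * X)) = δ ^ 5 := by
    rw [hδ, ← Real.rpow_natCast, ← Real.rpow_mul (by norm_num)]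
    congr 1
    push_cast
    ring
  have hδM : δ * M < 1 := by
    have h1 : Real.log M < x₀ * X * Real.log 2 := by
      have h2 : Real.log M / (x₀ * Real.log 2) < X := lt_of_lt_of_le hX₀ (by exact_mod_cast hX)
      rw [div_lt_iff₀ (by positivity)] at h2
      linarith
    have h2 : M < (2 : ℝ) ^ (x₀ * X) := by
      rw [← Real.log_lt_log_iff hM0 (by positivity), Real.log_rpow (by norm_num)]
      exact h1
    have h3 : δ * (2 : ℝ) ^ (x₀ * X) = 1 := by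
      rw [hδ, ← Real.rpow_add (by norm_num), neg_add_cancel, Real.rpow_zero]
    calc δ * M < δ * (2 : ℝ) ^ (x₀ * X) := mul_lt_mul_of_pos_left h2 hδ0
      _ = 1 := h3
  have hδ1 : δ < 1 := by
    have : 1 ≤ M := by rw [hM]; nlinarith [sq_nonneg K]
    nlinarith
  rw [hδ5]
  refine pln_core hP L Z S (K := K) (p₀ := p₀) (ε := p₀ / 100) (δ := δ) (δ1 := δ ^ 5) hK hp₀ hp₀1
    le_rfl hS hδ0 rfl ?_ ?_ ?_
  · -- smallness
    have e1 : ((2 * K * (8 * K * δ ^ 5 / (δ / 2)) + 4 * K * δ ^ 5) / δ + δ ^ 5 + δ ^ 5) / (δ / 2) =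
        64 * K ^ 2 * δ ^ 2 + 8 * K * δ ^ 3 + 4 * δ ^ 4 := by
      field_simp
      ring
    rw [e1]
    have h2 : δ ^ 3 ≤ δ ^ 2 := by nlinarith [sq_nonneg δ]
    have h3 : δ ^ 4 ≤ δ ^ 2 := by nlinarith [sq_nonneg δ, pow_pos hδ0 3]
    have h4 : 8 * K * δ ^ 3 ≤ 8 * K * δ ^ 2 := mul_le_mul_of_nonneg_left h2 (by positivity)
    have h5 : δ ^ 2 * (64 * K ^ 2 + 8 * K + 4) ≤ δ * (δ * M) := by
      rw [hM]
      nlinarith [sq_nonneg δ]
    have h6 : δ * (δ * M) < δ * 1 := mul_lt_mul_of_pos_left hδM hδ0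
    nlinarith
  · rw [hδ]
    exact h6a
  · rw [hδ]
    exact h6b

end Pool.PLN
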